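import Pool.Agent.Y743.CL.Fa
import Pool.Agent.W200.HW

/-! Project AF: the asymptotics of the number of ordinates. -/

set_option autoImplicit false

namespace Pool.Agent.Y743.AF

open Filter Topology
open SG (NZ ord)

lemma ord_monotone : Monotone ord := by
  intro n m h
  rcases Nat.eq_zero_or_pos n with h0 | h0
  · subst h0
    rcases Nat.eq_zero_or_pos m with h1 | h1
    · subst h1; exact le_rfl
    · have h2 : ord 0 = 0 := by
        unfold SG.ord
        simp
      rw [h2]; exact (SG.ord_pos h1).le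
  · exact SG.ord_mono h0 h

lemma NZ_up1 : ∃ C T0 : ℝ, 0 < C ∧ 10 ≤ T0 ∧ ∀ x : ℝ, T0 ≤ x →
    (NZ x : ℝ) ≤ x * Real.log x / (2 * Real.pi) + C * x := by
  obtain ⟨C, T0, hC, hT0, h⟩ := H370.nn_asymp H370.good_zeta
  have hpi := Real.pi_gt_three
  have hT00 : 0 < T0 := by linarith
  have hstep : ∀ T : ℝ, T0 ≤ T → (NZ (2 * T) : ℝ) ≤ NZ T + T * Real.log T / (2 * Real.pi) + C * T := by
    intro T hT
    have h1 := SG.NZ_le_add T (2 * T) (by linarith)
    have h2 := (abs_le.1 (h T hT T (2 * T) le_rfl (by linarith) (by linarith) le_rfl)).2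
    have h3 : (NZ (2 * T) : ℝ) ≤ NZ T + H370.NN riemannZeta T (2 * T) := by exact_mod_cast h1
    linarith
  set C' : ℝ := C + NZ (2 * T0) / T0 with hC'
  have hN0 : (0 : ℝ) ≤ NZ (2 * T0) := Nat.cast_nonneg _
  have hC'0 : C ≤ C' := by
    rw [hC']; have : 0 ≤ (NZ (2 * T0) : ℝ) / T0 := by positivity
    linarith
  refine ⟨C', T0, by linarith, hT0, ?_⟩
  have key : ∀ k : ℕ, ∀ x : ℝ, T0 ≤ x → x ≤ 2 ^ (k + 1) * T0 →
      (NZ x : ℝ) ≤ x * Real.log x / (2 * Real.pi) + C' * x := by
    intro k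
    induction k with
    | zero =>
      intro x hx hx2
      have h1 : (NZ x : ℝ) ≤ NZ (2 * T0) := by
        exact_mod_cast SG.NZ_mono (by simpa using hx2)
      have h2 : (NZ (2 * T0) : ℝ) = NZ (2 * T0) / T0 * T0 := by field_simp
      have h3 : (NZ (2 * T0) : ℝ) / T0 * T0 ≤ NZ (2 * T0) / T0 * x :=
        mul_le_mul_of_nonneg_left hx (by positivity)
      have h4 : 0 ≤ x * Real.log x / (2 * Real.pi) := by
        have := Real.log_nonneg (show 1 ≤ x by linarith)
        have : 0 ≤ x := by linarith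
        positivity
      have h5 : C' * x = C * x + NZ (2 * T0) / T0 * x := by rw [hC']; ring
      have h6 : 0 ≤ C * x := by
        have : 0 ≤ x := by linarith
        positivity
      linarith
    | succ k ih =>
      intro x hx hx2
      rcases le_or_gt x (2 * T0) with h2 | h2
      · refine ih x hx (h2.trans ?_)
        have : (1 : ℝ) ≤ 2 ^ k := one_le_pow₀ (by norm_num)
        rw [pow_succ]
        nlinarith
      · have h3 := ih (x / 2) (by linarith) (by
          rw [pow_succ] at hx2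
          linarith)
        have h4 := hstep (x / 2) (by linarith)
        rw [show 2 * (x / 2) = x by ring] at h4
        have h5 : Real.log (x / 2) ≤ Real.log x := Real.log_le_log (by linarith) (by linarith)
        have h6 : x / 2 * Real.log (x / 2) / (2 * Real.pi) ≤ x / 2 * Real.log x / (2 * Real.pi) := by
          apply div_le_div_of_nonneg_right _ (by positivity)
          exact mul_le_mul_of_nonneg_left h5 (by linarith)
        have h7 : x * Real.log x / (2 * Real.pi) = x / 2 * Real.log x / (2 * Real.pi) +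
          x / 2 * Real.log x / (2 * Real.pi) := by ring
        have h8 : C * (x / 2) ≤ C' * (x / 2) := mul_le_mul_of_nonneg_right hC'0 (by linarith)
        linarith
  intro x hx
  obtain ⟨k, hk⟩ := pow_unbounded_of_one_lt (x / T0) (show (1 : ℝ) < 2 by norm_num)
  refine key k x hx ?_
  rw [div_lt_iff₀ hT00] at hk
  have : (2 : ℝ) ^ k * T0 ≤ 2 ^ (k + 1) * T0 := by
    apply mul_le_mul_of_nonneg_right _ hT00.le
    exact pow_le_pow_right₀ (by norm_num) (by omega)
  linarith

lemma NZ_ratio (θ C ρ : ℝ) (hθ : 0 < θ) (hθ1 : θ < 1) (hρ : 0 < ρ) :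
    ∀ᶠ x : ℝ in atTop, (NZ (θ * x + C) : ℝ) ≤ (θ + ρ) * NZ (x - 1) := by
  obtain ⟨C1, T1, hC1, hT1, hup⟩ := NZ_up1
  set ε : ℝ := min (1 / 2) (ρ / (4 * (θ + ρ))) with hε
  have hε0 : 0 < ε := lt_min (by norm_num) (by positivity)
  have hε2 : ε ≤ 1 / 2 := min_le_left _ _
  have hε3 : ε * (4 * (θ + ρ)) ≤ ρ := by
    have := min_le_right (1 / 2) (ρ / (4 * (θ + ρ)))
    rw [← hε, le_div_iff₀ (by positivity)] at this
    exact this
  obtain ⟨T2, hlow⟩ := W200.HW.NZ_lower (ε / 2) (by linarith)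
  have hpi := Real.pi_gt_three
  filter_upwards [eventually_ge_atTop (T2 + 1), eventually_ge_atTop ((T1 + |C|) / θ),
    eventually_ge_atTop (|C| / (ρ / 4)), eventually_ge_atTop (|C| / (1 - θ)),
    Real.tendsto_log_atTop.eventually_ge_atTop (2 * Real.pi * C1 / ε),
    Real.tendsto_log_atTop.eventually_ge_atTop (4 / ε), eventually_ge_atTop (4 / ε),
    eventually_ge_atTop (2 : ℝ)] with x h1 h2 h3 h4 h5 h6 h7 h8
  have hx0 : 0 < x := by linarith
  have hL0 : 0 < Real.log x := lt_of_lt_of_le (by positivity) h6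
  rw [div_le_iff₀ hθ] at h2
  rw [div_le_iff₀ (by positivity)] at h3
  rw [div_le_iff₀ (by linarith)] at h4
  rw [div_le_iff₀ hε0] at h5 h6 h7
  have hc := le_abs_self C
  have hc' := neg_abs_le C
  have y1 : T1 ≤ θ * x + C := by linarith
  have y2 : θ * x + C ≤ x := by linarith
  have y3 : θ * x + C ≤ (θ + ρ / 4) * x := by linarith
  have hy := hup _ y1
  have hlogy : Real.log (θ * x + C) ≤ Real.log x := Real.log_le_log (by linarith) y2
  have hA : (NZ (θ * x + C) : ℝ) ≤ (θ + ρ / 4) * (1 + ε) * (x * Real.log x / (2 * Real.pi)) := by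
    have k1 : (θ * x + C) * Real.log (θ * x + C) / (2 * Real.pi) ≤
        (θ + ρ / 4) * x * Real.log x / (2 * Real.pi) := by
      apply div_le_div_of_nonneg_right _ (by positivity)
      apply mul_le_mul y3 hlogy (Real.log_nonneg (by linarith)) (by positivity)
    have k2 : C1 * (θ * x + C) ≤ C1 * ((θ + ρ / 4) * x) := mul_le_mul_of_nonneg_left y3 hC1.le
    have k3 : C1 * ((θ + ρ / 4) * x) ≤ (θ + ρ / 4) * x * (ε * Real.log x / (2 * Real.pi)) := by
      have k4 : C1 ≤ ε * Real.log x / (2 * Real.pi) := by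
        rw [le_div_iff₀ (by positivity)]
        linarith
      have := mul_le_mul_of_nonneg_left k4 (show 0 ≤ (θ + ρ / 4) * x by positivity)
      linarith
    have k5 : (θ + ρ / 4) * (1 + ε) * (x * Real.log x / (2 * Real.pi)) =
        (θ + ρ / 4) * x * Real.log x / (2 * Real.pi) +
        (θ + ρ / 4) * x * (ε * Real.log x / (2 * Real.pi)) := by ring
    linarith
  have hB : (1 - ε) * (1 - ε) * (x * Real.log x / (2 * Real.pi)) ≤ NZ (x - 1) := by
    have k1 := hlow (x - 1) (by linarith)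
    refine le_trans ?_ k1
    have hne : x - 1 ≠ 0 := by intro h; linarith
    have k2 : Real.log x - 1 ≤ Real.log (x - 1) := by
      have e : Real.log x = Real.log (x - 1) + Real.log (x / (x - 1)) := by
        rw [← Real.log_mul (by linarith) (by apply div_ne_zero <;> linarith)]
        congr 1
        field_simp
      have k3 : Real.log (x / (x - 1)) ≤ x / (x - 1) - 1 :=
        Real.log_le_sub_one_of_pos (div_pos hx0 (by linarith))
      have k4 : x / (x - 1) ≤ 2 := by
        rw [div_le_iff₀ (by linarith)]; linarith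
      linarith
    have k3 : (1 - ε / 4) * Real.log x ≤ Real.log (x - 1) := by linarith
    have k4 : (1 - ε / 4) * x ≤ x - 1 := by linarith
    have k5 : (1 - ε / 4) * x * ((1 - ε / 4) * Real.log x) ≤ (x - 1) * Real.log (x - 1) := by
      apply mul_le_mul k4 k3 _ (by linarith)
      have : 0 ≤ 1 - ε / 4 := by linarith
      positivity
    have k6 : (1 - ε) * (1 - ε) ≤ (1 - ε / 2) * ((1 - ε / 4) * (1 - ε / 4)) := by
      nlinarith [sq_nonneg ε, mul_nonneg hε0.le (sq_nonneg ε), mul_pos hε0 hε0]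
    have k7 : 0 ≤ x * Real.log x / (2 * Real.pi) := by positivity
    calc (1 - ε) * (1 - ε) * (x * Real.log x / (2 * Real.pi))
        ≤ (1 - ε / 2) * ((1 - ε / 4) * (1 - ε / 4)) * (x * Real.log x / (2 * Real.pi)) :=
          mul_le_mul_of_nonneg_right k6 k7
      _ = (1 - ε / 2) * ((1 - ε / 4) * x * ((1 - ε / 4) * Real.log x) / (2 * Real.pi)) := by ring
      _ ≤ (1 - ε / 2) * ((x - 1) * Real.log (x - 1) / (2 * Real.pi)) := by
          apply mul_le_mul_of_nonneg_left _ (by linarith)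
          exact div_le_div_of_nonneg_right k5 (by positivity)
      _ = (1 - ε / 2) * ((x - 1) / (2 * Real.pi) * Real.log (x - 1)) := by ring
  have hcmp : (θ + ρ / 4) * (1 + ε) ≤ (θ + ρ) * ((1 - ε) * (1 - ε)) := by
    have k1 : (1 - 2 * ε) ≤ (1 - ε) * (1 - ε) := by nlinarith [sq_nonneg ε]
    have k2 := mul_le_mul_of_nonneg_left k1 (show 0 ≤ θ + ρ by positivity)
    have k3 : ε * θ ≥ 0 := by positivity
    nlinarith [mul_pos hε0 hρ]
  calc (NZ (θ * x + C) : ℝ) ≤ (θ + ρ / 4) * (1 + ε) * (x * Real.log x / (2 * Real.pi)) := hA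
    _ ≤ (θ + ρ) * ((1 - ε) * (1 - ε)) * (x * Real.log x / (2 * Real.pi)) :=
        mul_le_mul_of_nonneg_right hcmp (by positivity)
    _ = (θ + ρ) * ((1 - ε) * (1 - ε) * (x * Real.log x / (2 * Real.pi))) := by ring
    _ ≤ (θ + ρ) * NZ (x - 1) := mul_le_mul_of_nonneg_left hB (by positivity)

lemma NZ_pred_le {N : ℕ} (hN : 1 ≤ N) : (NZ (ord N - 1) : ℝ) ≤ N := by
  by_contra h
  push Not at h
  have h1 : N ≤ NZ (ord N - 1) := by
    have : N < NZ (ord N - 1) := by exact_mod_cast h
    omega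
  have := (SG.ord_le_iff hN _).2 h1
  linarith

lemma ord_ratio (θ C ρ : ℝ) (hθ : 0 < θ) (hθ1 : θ < 1) (hρ : 0 < ρ) : ∀ᶠ N : ℕ in atTop,
    (((Finset.Icc 1 N).filter (fun n => ord n ≤ θ * ord N + C)).card : ℝ) ≤ (θ + ρ) * N := by
  filter_upwards [SG.ord_tendsto.eventually (NZ_ratio θ C ρ hθ hθ1 hρ), eventually_ge_atTop 1]
    with N hN h1
  have h2 : (Finset.Icc 1 N).filter (fun n => ord n ≤ θ * ord N + C) ⊆
      Finset.Icc 1 (NZ (θ * ord N + C)) := by
    intro n hn
    rw [Finset.mem_filter, Finset.mem_Icc] at hn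
    rw [Finset.mem_Icc]
    exact ⟨hn.1.1, (SG.ord_le_iff hn.1.1 _).1 hn.2⟩
  have h3 := Finset.card_le_card h2
  rw [Nat.card_Icc, Nat.add_sub_cancel] at h3
  have h4 : (((Finset.Icc 1 N).filter (fun n => ord n ≤ θ * ord N + C)).card : ℝ) ≤
      NZ (θ * ord N + C) := by exact_mod_cast h3
  refine (h4.trans hN).trans ?_
  exact mul_le_mul_of_nonneg_left (NZ_pred_le h1) (by positivity)

end Pool.Agent.Y743.AF
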