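import Pool.Agent.Y743.AF.Var

/-! Project AF: the numbers of ordinates in the windows `(t, t + h]` of the set of the ordinates and
of its affine image differ in the mean. -/

set_option autoImplicit false

namespace Pool.Agent.Y743.AF

open Complex Filter Topology MeasureTheory Set
open Pool.Agent.TH850.UV
open SG (NZ)
open Pool.Agent.Y743.CL (G pr pr_apply Pr mem_Pr rc rc_sq kap_bd VS XK rc_bd mom_bd SS SS_le G_cont
  VS_nonneg comb er er_meas)

lemma NZ_ii (s d lam A B : ℝ) (hlam : 0 < lam) :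
    IntervalIntegrable (fun t => (NZ ((t - d) / lam + s) : ℝ)) volume A B := by
  have hm : Monotone fun t : ℝ => (NZ ((t - d) / lam + s) : ℝ) := by
    intro x y hxy
    have h1 : (x - d) / lam + s ≤ (y - d) / lam + s := by
      have := div_le_div_of_nonneg_right (show x - d ≤ y - d by linarith) hlam.le
      linarith
    have h2 := SG.NZ_mono h1
    show (NZ ((x - d) / lam + s) : ℝ) ≤ NZ ((y - d) / lam + s)
    exact_mod_cast h2
  exact hm.intervalIntegrable

lemma er_eq (ℓ κ T a t : ℝ) : ((NZ (t + 2 * Real.pi * a / Real.log T) : ℝ) - NZ t) =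
    a - PP (rc (Real.log T / ℓ) (2 * Real.pi * a / Real.log T)) (XK κ T)
      (t + 2 * Real.pi * a / Real.log T / 2) + er ℓ κ T a t := by
  unfold er
  rw [G_re]
  ring

lemma abs_int_le {e : ℝ → ℝ} {A0 B0 A B M : ℝ} (hAB : A ≤ B) (h1 : A0 ≤ A) (h2 : B ≤ B0)
    (hi : IntervalIntegrable (fun t => e t ^ 2) volume A0 B0)
    (he : IntervalIntegrable (fun t => |e t|) volume A B)
    (hM : ∫ t in A0..B0, e t ^ 2 ≤ M) : ∫ t in A..B, |e t| ≤ (M + (B - A)) / 2 := by
  have hi' : IntervalIntegrable (fun t => e t ^ 2) volume A B := by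
    refine hi.mono_set ?_
    rw [uIcc_of_le hAB, uIcc_of_le (by linarith)]
    exact Icc_subset_Icc h1 h2
  have h3 : ∫ t in A..B, |e t| ≤ ∫ t in A..B, (e t ^ 2 + 1) / 2 := by
    refine intervalIntegral.integral_mono_on hAB he ((hi'.add
      (continuous_const.intervalIntegrable _ _)).div_const 2) fun t _ => ?_
    show |e t| ≤ (e t ^ 2 + 1) / 2
    nlinarith [sq_abs (e t), sq_nonneg (|e t| - 1)]
  have h4 : ∫ t in A..B, (e t ^ 2 + 1) / 2 = ((∫ t in A..B, e t ^ 2) + (B - A)) / 2 := by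
    rw [intervalIntegral.integral_div, intervalIntegral.integral_add hi'
      (continuous_const.intervalIntegrable _ _)]
    simp
  have h5 : ∫ t in A..B, e t ^ 2 ≤ ∫ t in A0..B0, e t ^ 2 :=
    intervalIntegral.integral_mono_interval h1 hAB h2 (Eventually.of_forall fun t => sq_nonneg _) hi
  rw [h4] at h3
  linarith

theorem core_low (tw : S_TW) (cr1 : S_CR1) (cr2 : S_CR2) : ∃ a δ : ℝ, 1 ≤ a ∧ 0 < δ ∧ δ ≤ 1 / 32 ∧
    ∀ lam c : ℝ, |lam - 1| ≤ δ → (lam ≠ 1 ∨ c ≠ 0) → ∀ᶠ T : ℝ in atTop,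
      T / 2 ≤ ∫ t in (5 / 4 * T)..(7 / 4 * T),
        |((NZ (t + 2 * Real.pi * a / Real.log T) : ℝ) - NZ t) -
          ((NZ ((t - c) / lam + 2 * Real.pi * a / Real.log T / lam) : ℝ) - NZ ((t - c) / lam))| := by
  obtain ⟨ℓ, C, T0, hℓ, hC, hT0, hcomb⟩ := comb 1 le_rfl
  have hℓ0 : 0 < ℓ := by linarith
  have hpi := Real.pi_gt_three
  have hpi4 := Real.pi_lt_d2
  set κ : ℝ := 1 / (1000 * ℓ) with hκ
  have hκ0 : 0 < κ := by positivity
  have hκ8 : κ ≤ 1 / 8 := by
    rw [hκ]
    exact one_div_le_one_div_of_le (by norm_num) (by linarith)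
  have hκℓ : κ * ℓ ≤ 1 / 1000 := by
    rw [hκ]
    apply le_of_eq
    field_simp
  have hlogκ : 0 ≤ Real.log (1 / κ) := by
    apply Real.log_nonneg
    rw [le_div_iff₀ hκ0]
    linarith
  set D : ℝ := C * (1 + Real.log (1 / κ)) with hD
  have hD0 : 0 < D := by positivity
  set r : ℝ := 30 * (D + 1) + 2 * ℓ with hr
  have hr30 : 30 * (D + 1) ≤ r := by rw [hr]; linarith
  have hr2 : 2 * ℓ ≤ r := by rw [hr]; linarith
  have hr1 : 4 ≤ r := by linarith
  have hr0 : 0 < r := by linarith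
  have hrr : r ≤ r ^ 2 := by nlinarith
  have hrD : 900 * (D + 1) ≤ r ^ 2 := by nlinarith
  set a : ℝ := Real.exp (Real.pi ^ 2 / 2 * (r ^ 2 + D + 1)) with ha
  have hloga : 2 / Real.pi ^ 2 * Real.log a = r ^ 2 + D + 1 := by
    rw [ha, Real.log_exp]
    field_simp
  have haℓ : 2 * ℓ ≤ a := by
    have h1 := Real.add_one_le_exp (Real.pi ^ 2 / 2 * (r ^ 2 + D + 1))
    rw [← ha] at h1
    have h2 : 1 * (r ^ 2 + D + 1) ≤ Real.pi ^ 2 / 2 * (r ^ 2 + D + 1) := by
      apply mul_le_mul_of_nonneg_right _ (by positivity)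
      nlinarith
    linarith
  have ha32 : 32 ≤ a := by linarith
  have ha0 : 0 < a := by linarith
  refine ⟨a, 1 / (4 * a), by linarith, by positivity, ?_, fun lam c hlam hlc => ?_⟩
  · exact one_div_le_one_div_of_le (by norm_num) (by linarith)
  have hδ : 1 / (4 * a) ≤ 1 / 128 := one_div_le_one_div_of_le (by norm_num) (by linarith)
  have hlam' := abs_le.1 hlam
  have hl1 : 127 / 128 ≤ lam := by linarith [hlam'.1]
  have hl2 : lam ≤ 129 / 128 := by linarith [hlam'.2]
  have hlam0 : 0 < lam := by linarith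
  -- the second window
  have ha'ℓ : ℓ ≤ a / lam := by
    rw [le_div_iff₀ hlam0]
    nlinarith
  have hloglam : |Real.log lam| ≤ 1 / 16 := by
    rw [abs_le]
    constructor
    · have h1 := Real.one_sub_inv_le_log_of_pos hlam0
      have h2 : lam⁻¹ ≤ 17 / 16 := by
        rw [inv_le_comm₀ hlam0 (by norm_num)]
        linarith
      linarith
    · have h1 := Real.log_le_sub_one_of_pos hlam0
      linarith
  have hloga' : |2 / Real.pi ^ 2 * Real.log (a / lam) - (r ^ 2 + D + 1)| ≤ 1 := by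
    rw [Real.log_div ha0.ne' hlam0.ne', mul_sub, hloga]
    have e : r ^ 2 + D + 1 - 2 / Real.pi ^ 2 * Real.log lam - (r ^ 2 + D + 1) =
      -(2 / Real.pi ^ 2 * Real.log lam) := by ring
    rw [e, abs_neg, abs_mul, abs_of_nonneg (show 0 ≤ 2 / Real.pi ^ 2 by positivity)]
    have h1 : 2 / Real.pi ^ 2 ≤ 1 := by
      rw [div_le_one (by positivity)]; nlinarith
    calc 2 / Real.pi ^ 2 * |Real.log lam| ≤ 1 * (1 / 16) :=
          mul_le_mul h1 hloglam (abs_nonneg _) (by norm_num)
      _ ≤ 1 := by norm_num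
  have haa : |a - a / lam| ≤ 1 / 2 := by
    have e : a - a / lam = a * (lam - 1) / lam := by field_simp
    rw [e, abs_div, abs_mul, abs_of_pos ha0, abs_of_pos hlam0, div_le_iff₀ hlam0]
    have h1 : a * |lam - 1| ≤ a * (1 / (4 * a)) := mul_le_mul_of_nonneg_left hlam ha0.le
    have h2 : a * (1 / (4 * a)) = 1 / 4 := by field_simp
    rw [h2] at h1
    linarith
  -- the correlation
  obtain ⟨η, T1, hη, hT1, hcr1⟩ : ∃ η T1 : ℝ, 0 < η ∧ 1 ≤ T1 ∧ (lam ≠ 1 → ∀ T : ℝ, T1 ≤ T → ∀ X : ℕ,
      (X : ℝ) ≤ T ^ (1 / 8 : ℝ) → ∀ u v : ℕ → ℝ,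
      (∀ p : ℕ, p.Prime → |u p| ≤ 1 / Real.sqrt p ∧ |u p| ≤ η * Real.log p) →
      (∀ p : ℕ, p.Prime → |v p| ≤ 1 / Real.sqrt p ∧ |v p| ≤ η * Real.log p) →
      ∀ A B b d : ℝ, A ≤ B → B - A ≤ T →
        |∫ t in A..B, (∑ p ∈ Prm X, u p * Real.cos ((t + b) * Real.log p)) *
          (∑ q ∈ Prm X, v q * Real.cos ((t + d) / lam * Real.log q))| ≤ 1 / 16 * T) := by
    by_cases h : lam = 1
    · exact ⟨1, 1, one_pos, le_rfl, fun h' => absurd h h'⟩
    · obtain ⟨η, T1, h1, h2, h3⟩ := cr1 lam (1 / 16) hlam0 h (by norm_num)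
      exact ⟨η, T1, h1, h2, fun _ => h3⟩
  have hone : ∀ᶠ T : ℝ in atTop, lam = 1 →
      |∑ p ∈ Prm (XK κ T), rc (Real.log T / ℓ) (2 * Real.pi * a / Real.log T) p *
        rc (Real.log T / ℓ) (2 * Real.pi * a / Real.log T) p * Real.cos (c * Real.log p)| ≤
      VS (rc (Real.log T / ℓ) (2 * Real.pi * a / Real.log T)) (XK κ T) / 8 + 1 := by
    by_cases h : lam = 1
    · have hc : c ≠ 0 := by
        rcases hlc with h1 | h1
        · exact absurd h h1
        · exact h1
      filter_upwards [cross_one tw hℓ hκ0 hκℓ c a hc ha0] with T hT _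
      exact hT
    · exact Eventually.of_forall fun T h' => absurd h' h
  have hth : Tendsto (fun T : ℝ => 2 * Real.pi * a / Real.log T) atTop (𝓝 0) :=
    Real.tendsto_log_atTop.const_div_atTop _
  have hth' : Tendsto (fun T : ℝ => 2 * Real.pi * a / Real.log T / lam) atTop (𝓝 0) := by
    have := hth.div_const lam
    rwa [zero_div] at this
  have hlo : ∀ K : ℝ, ∀ᶠ T : ℝ in atTop, Real.log T + K ≤ T / 8 := by
    intro K
    have h1 : (fun T : ℝ => Real.log T + K) =o[atTop] fun T : ℝ => T :=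
      Real.isLittleO_log_id_atTop.add (Asymptotics.isLittleO_const_id_atTop _)
    have h2 := h1.bound (c := 1 / 8) (by norm_num)
    filter_upwards [h2, eventually_ge_atTop 1] with T hT hT1
    rw [Real.norm_of_nonneg (by linarith : (0 : ℝ) ≤ T)] at hT
    have := (le_abs_self _).trans hT
    linarith
  have hp38 : ∀ᶠ T : ℝ in atTop, 96 * T ^ (3 / 8 : ℝ) ≤ T := by
    filter_upwards [(tendsto_rpow_atTop (show (0 : ℝ) < 5 / 8 by norm_num)).eventually_ge_atTop 96,
      eventually_ge_atTop 1] with T hT hT1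
    have h1 : T ^ (5 / 8 : ℝ) * T ^ (3 / 8 : ℝ) = T := by
      rw [← Real.rpow_add (by linarith)]
      norm_num
    have h2 := mul_le_mul_of_nonneg_right hT (show 0 ≤ T ^ (3 / 8 : ℝ) by positivity)
    linarith
  have hgl : ∀ᶠ T : ℝ in atTop, 48 * (Real.sqrt T * (1 + Real.log T)) ≤ T / 16 := by
    have h1 : (fun T : ℝ => 1 + Real.log T) =o[atTop] fun T : ℝ => T ^ (1 / 2 : ℝ) := by
      refine (Asymptotics.isLittleO_const_left.2 (Or.inr ?_)).add
        (isLittleO_log_rpow_atTop (by norm_num))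
      exact tendsto_norm_atTop_atTop.comp (tendsto_rpow_atTop (by norm_num))
    have h2 := h1.bound (c := 1 / 768) (by norm_num)
    filter_upwards [h2, eventually_ge_atTop 1] with T hT hT1
    rw [Real.norm_of_nonneg (by positivity : (0 : ℝ) ≤ T ^ (1 / 2 : ℝ)), ← Real.sqrt_eq_rpow] at hT
    have h3 := (le_abs_self _).trans hT
    have h4 := Real.mul_self_sqrt (show 0 ≤ T by linarith)
    have h5 := Real.sqrt_nonneg T
    nlinarith
  filter_upwards [eventually_ge_atTop T0, eventually_ge_atTop T1, eventually_ge_atTop (1 : ℝ), hone,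
    hth.eventually (gt_mem_nhds hη), hth'.eventually (gt_mem_nhds hη),
    Real.tendsto_log_atTop.eventually_ge_atTop (a * Real.log a),
    Real.tendsto_log_atTop.eventually_ge_atTop (a / lam * Real.log (a / lam)),
    Real.tendsto_log_atTop.eventually_ge_atTop (8 / κ), hlo 7, hlo (2 * |c| + 7), hp38, hgl]
    with T hTT0 hTT1 hT1' hTone hTη hTη' hTa hTa' hTκ hT7 hTc hT38 hTg
  have hTpos : 0 < T := by linarith
  have hL0 : 0 < Real.log T := lt_of_lt_of_le (by positivity) hTκ
  have hκT : 8 ≤ κ * Real.log T := by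
    rw [div_le_iff₀ hκ0] at hTκ
    linarith
  set L := Real.log T with hL
  set l := L / ℓ with hl
  have hlpos : 0 < l := by positivity
  set h := 2 * Real.pi * a / L with hh
  have hh0 : 0 < h := by positivity
  set X := XK κ T with hX
  set u := rc l h with hu
  set v := rc l (2 * Real.pi * (a / lam) / L) with hv
  have eh : 2 * Real.pi * (a / lam) / L = h / lam := by rw [hh]; ring
  -- the facts of `comb`
  obtain ⟨i1, m1, w1⟩ := hcomb T hTT0 a (by linarith) (by linarith) κ hκ0 hκ8 hκT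
  obtain ⟨i2, m2, w2⟩ := hcomb T hTT0 (a / lam) ha'ℓ (by linarith) κ hκ0 hκ8 hκT
  rw [← hD] at m1 w1 m2 w2
  rw [← hL, ← hl, ← hh, ← hu, ← hX, hloga] at w1
  rw [← hL, ← hl, ← hv, ← hX] at w2
  rw [← hL] at i1 m1 i2 m2
  have w1' := abs_le.1 w1
  have w2' := abs_le.1 w2
  have hla' := abs_le.1 hloga'
  -- the length
  have hXle : (X : ℝ) ≤ T ^ (1 / 8 : ℝ) := by
    have h2 : (X : ℝ) ≤ T ^ κ := Nat.floor_le (by positivity)
    exact h2.trans (Real.rpow_le_rpow_of_exponent_le hT1' hκ8)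
  have hX1 : 1 ≤ X := by
    apply Nat.le_floor
    rw [Nat.cast_one]
    exact Real.one_le_rpow hT1' hκ0.le
  have hX3 : 12 * (X : ℝ) ^ 3 ≤ T / 8 := by
    have h2 : (X : ℝ) ^ 3 ≤ (T ^ (1 / 8 : ℝ)) ^ 3 := pow_le_pow_left₀ (by positivity) hXle 3
    have h3 : (T ^ (1 / 8 : ℝ)) ^ 3 = T ^ (3 / 8 : ℝ) := by
      rw [← Real.rpow_natCast, ← Real.rpow_mul hTpos.le]
      norm_num
    rw [h3] at h2
    linarith
  have hX4 : ((X ^ 4 : ℕ) : ℝ) ≤ Real.sqrt T := by
    push_cast
    have h2 : (X : ℝ) ^ 4 ≤ (T ^ (1 / 8 : ℝ)) ^ 4 := pow_le_pow_left₀ (by positivity) hXle 4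
    have h3 : (T ^ (1 / 8 : ℝ)) ^ 4 = Real.sqrt T := by
      rw [← Real.rpow_natCast, ← Real.rpow_mul hTpos.le, Real.sqrt_eq_rpow]
      norm_num
    rw [h3] at h2
    exact h2
  have hub : ∀ n, |u n| ≤ 1 := fun n => by
    have := rc_bd hlpos h n
    exact abs_le_of_sq_le_sq (by rw [one_pow]; exact this) (by norm_num)
  have hvb : ∀ n, |v n| ≤ 1 := fun n => by
    have := rc_bd hlpos (2 * Real.pi * (a / lam) / L) n
    exact abs_le_of_sq_le_sq (by rw [one_pow]; exact this) (by norm_num)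
  -- the correlation
  have hcr : |∫ t in (5 / 4 * T)..(7 / 4 * T), PP u X (t + h / 2) * PP v X ((t + (h / 2 - c)) / lam)| ≤
      T / 4 * (VS u X / 8 + 1) + T / 16 := by
    have hV0 := VS_nonneg u X
    by_cases hl1' : lam = 1
    · have huv : v = u := by
        rw [hv, eh, hl1', div_one]
      have h2 := cr2 X u u hub hub (5 / 4 * T) (7 / 4 * T) (h / 2) (h / 2 - c) (by linarith)
      have h3 : (∫ t in (5 / 4 * T)..(7 / 4 * T), (∑ p ∈ Prm X, u p * Real.cos ((t + h / 2) *
          Real.log p)) * (∑ q ∈ Prm X, u q * Real.cos ((t + (h / 2 - c)) * Real.log q))) =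
          ∫ t in (5 / 4 * T)..(7 / 4 * T), PP u X (t + h / 2) * PP v X ((t + (h / 2 - c)) / lam) := by
        refine intervalIntegral.integral_congr fun t _ => ?_
        simp only [PP, huv, hl1', div_one]
      rw [h3, show h / 2 - (h / 2 - c) = c by ring] at h2
      have h4 := hTone hl1'
      have h5 := abs_le.1 h2
      have h6 := abs_le.1 h4
      have h7 : (7 / 4 * T - 5 / 4 * T) / 2 * ∑ p ∈ Prm X, u p * u p * Real.cos (c * Real.log p) ≤
          T / 4 * (VS u X / 8 + 1) := by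
        have : (7 / 4 * T - 5 / 4 * T) / 2 = T / 4 := by ring
        rw [this]
        exact mul_le_mul_of_nonneg_left h6.2 (by positivity)
      have h8 : -(T / 4 * (VS u X / 8 + 1)) ≤ (7 / 4 * T - 5 / 4 * T) / 2 *
          ∑ p ∈ Prm X, u p * u p * Real.cos (c * Real.log p) := by
        have : (7 / 4 * T - 5 / 4 * T) / 2 = T / 4 := by ring
        rw [this, ← mul_neg]
        exact mul_le_mul_of_nonneg_left h6.1 (by positivity)
      rw [abs_le]
      constructor <;> linarith [h5.1, h5.2]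
    · have h2 := hcr1 hl1' T hTT1 X hXle u v (fun p hp => ⟨rc_abs_le hlpos h p hp, by
          refine (rc_abs_le' hlpos hh0.le p hp).trans ?_
          exact mul_le_mul_of_nonneg_right hTη.le (Real.log_nonneg (by exact_mod_cast hp.one_le))⟩)
        (fun p hp => ⟨rc_abs_le hlpos _ p hp, by
          refine (rc_abs_le' hlpos (by rw [eh]; positivity) p hp).trans ?_
          rw [eh]
          exact mul_le_mul_of_nonneg_right hTη'.le
            (Real.log_nonneg (by exact_mod_cast hp.one_le))⟩)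
        (5 / 4 * T) (7 / 4 * T) (h / 2) (h / 2 - c) (by linarith) (by linarith)
      refine le_trans h2 ?_
      have : 0 ≤ T / 4 * (VS u X / 8 + 1) := by positivity
      linarith
  have hdet := det cr2 (V1 := r ^ 2 + 2 * D + 2) hT1' hX1 hX3 hX4 hTg hub hvb hr1 (by linarith)
    (by linarith [w1'.1]) (by linarith [w1'.2]) (by linarith [w2'.1, hla'.1])
    (by linarith [w2'.2, hla'.2]) (by linarith) (by linarith) hcr
  -- the errors
  have hcabs := abs_nonneg c
  have hc1 := le_abs_self c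
  have hc2 := neg_abs_le c
  have N1i : IntervalIntegrable (fun t => ((NZ (t + h) : ℝ) - NZ t)) volume (5 / 4 * T) (7 / 4 * T) := by
    have h1 := NZ_ii h 0 1 (5 / 4 * T) (7 / 4 * T) one_pos
    have h2 := NZ_ii 0 0 1 (5 / 4 * T) (7 / 4 * T) one_pos
    simp only [sub_zero, div_one, add_zero] at h1 h2
    exact h1.sub h2
  have N2i : IntervalIntegrable (fun t => ((NZ ((t - c) / lam + h / lam) : ℝ) - NZ ((t - c) / lam)))
      volume (5 / 4 * T) (7 / 4 * T) := by
    have h1 := NZ_ii (h / lam) c lam (5 / 4 * T) (7 / 4 * T) hlam0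
    have h2 := NZ_ii 0 c lam (5 / 4 * T) (7 / 4 * T) hlam0
    simp only [add_zero] at h2
    exact h1.sub h2
  have hPu := PP_cont u X
  have hPv := PP_cont v X
  have eN1 : ∀ t, er ℓ κ T a t = ((NZ (t + h) : ℝ) - NZ t) - a + PP u X (t + h / 2) := by
    intro t
    have := er_eq ℓ κ T a t
    rw [← hL, ← hl, ← hh, ← hu, ← hX] at this
    linarith
  have eN2 : ∀ t, er ℓ κ T (a / lam) ((t - c) / lam) =
      ((NZ ((t - c) / lam + h / lam) : ℝ) - NZ ((t - c) / lam)) - a / lam +
        PP v X ((t + (h / 2 - c)) / lam) := by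
    intro t
    have h1 := er_eq ℓ κ T (a / lam) ((t - c) / lam)
    rw [← hL, ← hl, ← hv, ← hX, eh] at h1
    have h2 : (t - c) / lam + h / lam / 2 = (t + (h / 2 - c)) / lam := by ring
    rw [h2] at h1
    linarith
  have E1i : IntervalIntegrable (fun t => |er ℓ κ T a t|) volume (5 / 4 * T) (7 / 4 * T) := by
    have : (fun t => |er ℓ κ T a t|) = fun t => |((NZ (t + h) : ℝ) - NZ t) - a + PP u X (t + h / 2)| := by
      funext t; rw [eN1]
    rw [this]
    exact ((N1i.sub (continuous_const.intervalIntegrable _ _)).add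
      (Continuous.intervalIntegrable (by fun_prop) _ _)).abs
  have E2i : IntervalIntegrable (fun t => |er ℓ κ T (a / lam) ((t - c) / lam)|) volume
      (5 / 4 * T) (7 / 4 * T) := by
    have : (fun t => |er ℓ κ T (a / lam) ((t - c) / lam)|) = fun t =>
        |((NZ ((t - c) / lam + h / lam) : ℝ) - NZ ((t - c) / lam)) - a / lam +
        PP v X ((t + (h / 2 - c)) / lam)| := by
      funext t; rw [eN2]
    rw [this]
    exact ((N2i.sub (continuous_const.intervalIntegrable _ _)).add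
      (Continuous.intervalIntegrable (by fun_prop) _ _)).abs
  have B1 : ∫ t in (5 / 4 * T)..(7 / 4 * T), |er ℓ κ T a t| ≤ (D * T + T / 2) / 2 := by
    have := abs_int_le (A0 := T + L) (B0 := 2 * T - L - 7) (A := 5 / 4 * T) (B := 7 / 4 * T)
      (by linarith) (by linarith) (by linarith) i1 E1i m1
    linarith
  have E2i' : IntervalIntegrable (fun s => |er ℓ κ T (a / lam) s|) volume
      ((5 / 4 * T - c) / lam) ((7 / 4 * T - c) / lam) := by
    have h1 := NZ_ii (h / lam) 0 1 ((5 / 4 * T - c) / lam) ((7 / 4 * T - c) / lam) one_pos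
    have h2 := NZ_ii 0 0 1 ((5 / 4 * T - c) / lam) ((7 / 4 * T - c) / lam) one_pos
    simp only [sub_zero, div_one, add_zero] at h1 h2
    have : (fun s => |er ℓ κ T (a / lam) s|) = fun s =>
        |((NZ (s + h / lam) : ℝ) - NZ s) - a / lam + PP v X (s + h / lam / 2)| := by
      funext s
      have h1 := er_eq ℓ κ T (a / lam) s
      rw [← hL, ← hl, ← hv, ← hX, eh] at h1
      congr 1
      linarith
    rw [this]
    exact (((h1.sub h2).sub (continuous_const.intervalIntegrable _ _)).add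
      (Continuous.intervalIntegrable (by fun_prop) _ _)).abs
  have B2 : ∫ t in (5 / 4 * T)..(7 / 4 * T), |er ℓ κ T (a / lam) ((t - c) / lam)| ≤
      (2 * D * T + T / 2) / 2 := by
    have h0 := sub_int (fun s => |er ℓ κ T (a / lam) s|) hlam0 (5 / 4 * T) (7 / 4 * T) (-c)
    simp only [← sub_eq_add_neg] at h0
    rw [h0]
    have hA' : T + L ≤ (5 / 4 * T - c) / lam := by
      rw [le_div_iff₀ hlam0]
      have h1 : (T + L) * lam ≤ (T + L) * (129 / 128) := mul_le_mul_of_nonneg_left hl2 (by positivity)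
      linarith
    have hB' : (7 / 4 * T - c) / lam ≤ 2 * T - L - 7 := by
      rw [div_le_iff₀ hlam0]
      have h1 : (2 * T - L - 7) * (127 / 128) ≤ (2 * T - L - 7) * lam :=
        mul_le_mul_of_nonneg_left hl1 (by linarith)
      linarith
    have hAB' : (5 / 4 * T - c) / lam ≤ (7 / 4 * T - c) / lam :=
      div_le_div_of_nonneg_right (by linarith) hlam0.le
    have h1 := abs_int_le hAB' hA' hB' i2 E2i' m2
    have h2 := mul_le_mul_of_nonneg_left h1 hlam0.le
    refine h2.trans ?_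
    have e : lam * ((D * T + ((7 / 4 * T - c) / lam - (5 / 4 * T - c) / lam)) / 2) =
        (lam * (D * T) + T / 2) / 2 := by
      field_simp; ring
    rw [e]
    have h3 : lam * (D * T) ≤ 2 * (D * T) := mul_le_mul_of_nonneg_right (by linarith) (by positivity)
    linarith
  -- the conclusion
  have hfin : ∫ t in (5 / 4 * T)..(7 / 4 * T), (|PP u X (t + h / 2) - PP v X ((t + (h / 2 - c)) / lam)| -
      |er ℓ κ T a t| - |er ℓ κ T (a / lam) ((t - c) / lam)| - 1 / 2) ≤
      ∫ t in (5 / 4 * T)..(7 / 4 * T), |((NZ (t + h) : ℝ) - NZ t) -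
          ((NZ ((t - c) / lam + h / lam) : ℝ) - NZ ((t - c) / lam))| := by
    refine intervalIntegral.integral_mono_on (by linarith) ?_ ((N1i.sub N2i).abs) fun t _ => ?_
    · exact (((Continuous.intervalIntegrable (by fun_prop) _ _).sub E1i).sub E2i).sub
        (continuous_const.intervalIntegrable _ _)
    · have h1 := eN1 t
      have h2 := eN2 t
      have h3 : PP u X (t + h / 2) - PP v X ((t + (h / 2 - c)) / lam) =
          er ℓ κ T a t - er ℓ κ T (a / lam) ((t - c) / lam) + (a - a / lam) -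
          (((NZ (t + h) : ℝ) - NZ t) -
          ((NZ ((t - c) / lam + h / lam) : ℝ) - NZ ((t - c) / lam))) := by linarith
      have h4 := abs_sub (er ℓ κ T a t - er ℓ κ T (a / lam) ((t - c) / lam) + (a - a / lam))
        (((NZ (t + h) : ℝ) - NZ t) -
          ((NZ ((t - c) / lam + h / lam) : ℝ) - NZ ((t - c) / lam)))
      have h5 := abs_add_le (er ℓ κ T a t - er ℓ κ T (a / lam) ((t - c) / lam)) (a - a / lam)
      have h6 := abs_sub (er ℓ κ T a t) (er ℓ κ T (a / lam) ((t - c) / lam))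
      rw [← h3] at h4
      linarith
  rw [intervalIntegral.integral_sub (((Continuous.intervalIntegrable (by fun_prop) _ _).sub E1i).sub E2i)
      (continuous_const.intervalIntegrable _ _),
    intervalIntegral.integral_sub ((Continuous.intervalIntegrable (by fun_prop) _ _).sub E1i) E2i,
    intervalIntegral.integral_sub (Continuous.intervalIntegrable (by fun_prop) _ _) E1i,
    intervalIntegral.integral_const, smul_eq_mul] at hfin
  refine le_trans ?_ hfin
  have h1 : T / 2 * (3 * (D + 1)) ≤ T / 2 * (r / 10) :=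
    mul_le_mul_of_nonneg_left (by linarith) (by positivity)
  linarith

end Pool.Agent.Y743.AF
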