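import Pool.Agent.Y743.AF.Gre

/-! Project AF: the correlation at a fixed shift. -/

set_option autoImplicit false

namespace Pool.Agent.Y743.AF

open Complex Filter Topology MeasureTheory Set
open Pool.Agent.TH850.UV
open Pool.Agent.Y743.CL (G pr pr_apply Pr mem_Pr rc rc_sq kap_bd VS XK rc_bd)

/-- the ideal coefficients, squared -/
noncomputable def Wp (h : ℝ) (p : ℕ) : ℝ := 4 / Real.pi ^ 2 * (Real.sin (h / 2 * Real.log p) ^ 2 / p)

lemma Wp_nonneg (h : ℝ) (p : ℕ) : 0 ≤ Wp h p := by unfold Wp; positivity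

lemma log_small {p : ℕ} (hp : 1 ≤ p) (h : p < 1000) : Real.log p ≤ 7 := by
  have hp0 : (0 : ℝ) < p := by exact_mod_cast hp
  have h1 : (p : ℝ) ≤ 2 ^ 10 := by
    have : (p : ℝ) < 1000 := by exact_mod_cast h
    linarith
  have h2 : Real.log p ≤ Real.log (2 ^ 10) := Real.log_le_log hp0 h1
  rw [Real.log_pow] at h2
  have := Real.log_two_lt_d9
  push_cast at h2
  linarith

lemma Wp_small {h : ℝ} (p : ℕ) (hp : p.Prime) (hp2 : p < 1000) : Wp h p ≤ 49 * h ^ 2 := by
  have hp1 : (1 : ℝ) ≤ p := by exact_mod_cast hp.one_le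
  have hlog : 0 ≤ Real.log p := Real.log_nonneg hp1
  have hpi := Real.pi_gt_three
  have h1 : Real.sin (h / 2 * Real.log p) ^ 2 ≤ (h / 2 * Real.log p) ^ 2 := by
    rw [sq_le_sq]
    exact Real.abs_sin_le_abs
  have h2 : 4 / Real.pi ^ 2 ≤ 1 := by
    rw [div_le_one (by positivity)]; nlinarith
  have h3 := log_small hp.one_le hp2
  unfold Wp
  calc 4 / Real.pi ^ 2 * (Real.sin (h / 2 * Real.log p) ^ 2 / p)
      ≤ 1 * ((h / 2 * Real.log p) ^ 2 / 1) := by
        apply mul_le_mul h2 _ (by positivity) (by norm_num)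
        exact div_le_div₀ (by positivity) h1 one_pos hp1
    _ = h ^ 2 / 4 * Real.log p ^ 2 := by ring
    _ ≤ h ^ 2 / 4 * 7 ^ 2 := by
        apply mul_le_mul_of_nonneg_left _ (by positivity)
        exact pow_le_pow_left₀ hlog h3 2
    _ ≤ 49 * h ^ 2 := by nlinarith [sq_nonneg h]

lemma dev_sum {l h : ℝ} (hl : 1000 ≤ l) (X : ℕ) (hX : ∀ p : ℕ, p ∈ Prm X → Real.log p ≤ l / 1000) :
    ∑ p ∈ Prm X, (Wp h p - rc l h p ^ 2) ≤ VS (rc l h) X / 8 + 2000000 * h ^ 2 := by
  have hl0 : 0 < l := by linarith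
  have hpt : ∀ p ∈ Prm X, Wp h p - rc l h p ^ 2 ≤
      12 / 125 * Wp h p + (if p < 1000 then 1568 * h ^ 2 else 0) := by
    intro p hp
    have hpp := (mem_Prm.1 hp).1
    have hlp := hX p hp
    have hlog : 0 ≤ Real.log p := Real.log_nonneg (by exact_mod_cast hpp.one_le)
    have h1 := rc_dev (l := l) (by linarith) h p hpp (by linarith)
    have hW := Wp_nonneg h p
    have h2 : (1 + Real.log p) / l ≤ 2 / 1000 := by
      rw [div_le_div_iff₀ hl0 (by norm_num)]
      linarith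
    have hpos : (0 : ℝ) < p := by exact_mod_cast hpp.pos
    have e : 4 / Real.pi ^ 2 * (Real.sin (h / 2 * Real.log p) ^ 2 / p) = Wp h p := rfl
    rw [e] at h1
    split_ifs with h3
    · have h4 := Wp_small (h := h) p hpp h3
      have h5 : (1 : ℝ) / p ≤ 1 := by
        rw [div_le_one hpos]
        exact_mod_cast hpp.one_le
      have h6 : 32 * ((1 + Real.log p) / l + 1 / p) * Wp h p ≤ 32 * (2 / 1000 + 1) * Wp h p := by
        apply mul_le_mul_of_nonneg_right _ hW
        linarith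
      linarith
    · have h5 : (1 : ℝ) / p ≤ 1 / 1000 := by
        apply one_div_le_one_div_of_le (by norm_num)
        push Not at h3
        exact_mod_cast h3
      have h6 : 32 * ((1 + Real.log p) / l + 1 / p) * Wp h p ≤ 32 * (2 / 1000 + 1 / 1000) * Wp h p := by
        apply mul_le_mul_of_nonneg_right _ hW
        linarith
      linarith
  have h1 := Finset.sum_le_sum hpt
  rw [Finset.sum_add_distrib, ← Finset.mul_sum] at h1
  have h2 : ∑ p ∈ Prm X, (if p < 1000 then 1568 * h ^ 2 else (0 : ℝ)) ≤ 1568000 * h ^ 2 := by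
    rw [← Finset.sum_filter]
    have h3 : (Prm X).filter (fun p => p < 1000) ⊆ Finset.range 1000 := by
      intro p hp
      rw [Finset.mem_filter] at hp
      exact Finset.mem_range.2 hp.2
    have h4 := Finset.card_le_card h3
    rw [Finset.card_range] at h4
    rw [Finset.sum_const, nsmul_eq_mul]
    have h5 : (((Prm X).filter (fun p => p < 1000)).card : ℝ) ≤ 1000 := by exact_mod_cast h4
    have h6 := mul_le_mul_of_nonneg_right h5 (show 0 ≤ 1568 * h ^ 2 by positivity)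
    linarith
  have h3 : ∑ p ∈ Prm X, (Wp h p - rc l h p ^ 2) = ∑ p ∈ Prm X, Wp h p - VS (rc l h) X := by
    rw [VS_eq', Finset.sum_sub_distrib]
  rw [h3] at h1 ⊢
  have h4 : 0 ≤ VS (rc l h) X := Pool.Agent.Y743.CL.VS_nonneg _ _
  have h5 := sq_nonneg h
  linarith

lemma cross_one (tw : S_TW) {ℓ κ : ℝ} (hℓ : 16 ≤ ℓ) (hκ : 0 < κ) (hκℓ : κ * ℓ ≤ 1 / 1000)
    (c a : ℝ) (hc : c ≠ 0) (ha : 0 < a) : ∀ᶠ T : ℝ in atTop,
    |∑ p ∈ Prm (XK κ T), rc (Real.log T / ℓ) (2 * Real.pi * a / Real.log T) p *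
      rc (Real.log T / ℓ) (2 * Real.pi * a / Real.log T) p * Real.cos (c * Real.log p)| ≤
    VS (rc (Real.log T / ℓ) (2 * Real.pi * a / Real.log T)) (XK κ T) / 8 + 1 := by
  obtain ⟨h0, hh0, htw⟩ := tw c (2 * Real.pi * a * κ) (1 / 4) hc (by norm_num)
  have hℓ0 : 0 < ℓ := by linarith
  have hpi := Real.pi_gt_three
  have hth : Tendsto (fun T : ℝ => 2 * Real.pi * a / Real.log T) atTop (𝓝 0) :=
    Real.tendsto_log_atTop.const_div_atTop _
  filter_upwards [Real.tendsto_log_atTop.eventually_ge_atTop (1000 * ℓ),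
    hth.eventually (gt_mem_nhds hh0), hth.eventually (gt_mem_nhds (show (0 : ℝ) < 1 / 2000 by norm_num)),
    eventually_ge_atTop (1 : ℝ)] with T hT1 hT2 hT3 hT4
  have hT0 : 0 < T := by linarith
  set L := Real.log T with hL
  have hL0 : 0 < L := by nlinarith
  set l := L / ℓ with hl
  have hl1 : 1000 ≤ l := by rw [hl, le_div_iff₀ hℓ0]; exact hT1
  have hl0 : 0 < l := by linarith
  set h := 2 * Real.pi * a / L with hh
  have hh1 : 0 < h := by positivity
  have hXlog : ∀ p : ℕ, 1 ≤ p → p ≤ XK κ T → Real.log p ≤ κ * L := by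
    intro p hp1 hp
    have h1 : (p : ℝ) ≤ T ^ κ := by
      have h2 : (XK κ T : ℝ) ≤ T ^ κ := Nat.floor_le (by positivity)
      have h3 : (p : ℝ) ≤ XK κ T := by exact_mod_cast hp
      linarith
    have h2 := Real.log_le_log (by exact_mod_cast hp1) h1
    rwa [Real.log_rpow hT0] at h2
  have hdev := dev_sum (h := h) hl1 (XK κ T) (fun p hp => by
    have hp' := mem_Prm.1 hp
    refine (hXlog p hp'.1.one_le hp'.2).trans ?_
    rw [hl]
    have : κ * L = (κ * ℓ) * (L / ℓ) := by field_simp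
    rw [this]
    have := mul_le_mul_of_nonneg_right hκℓ (show 0 ≤ L / ℓ by positivity)
    linarith)
  have htw1 := htw h hh1 hT2 (XK κ T) (by
    rcases Nat.eq_zero_or_pos (XK κ T) with h1 | h1
    · rw [h1]; simp; positivity
    · have h2 := hXlog _ h1 le_rfl
      calc h * Real.log (XK κ T : ℝ) ≤ h * (κ * L) := mul_le_mul_of_nonneg_left h2 hh1.le
        _ = 2 * Real.pi * a * κ := by rw [hh]; field_simp)
  have e1 : ∑ p ∈ Prm (XK κ T), rc l h p * rc l h p * Real.cos (c * Real.log p) =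
      ∑ p ∈ Prm (XK κ T), Wp h p * Real.cos (c * Real.log p) -
      ∑ p ∈ Prm (XK κ T), (Wp h p - rc l h p ^ 2) * Real.cos (c * Real.log p) := by
    rw [← Finset.sum_sub_distrib]
    refine Finset.sum_congr rfl fun p _ => ?_
    ring
  have h2 : |∑ p ∈ Prm (XK κ T), Wp h p * Real.cos (c * Real.log p)| ≤ 1 / 4 := by
    have e2 : ∑ p ∈ Prm (XK κ T), Wp h p * Real.cos (c * Real.log p) = 4 / Real.pi ^ 2 *
        ∑ p ∈ Prm (XK κ T), Real.sin (h / 2 * Real.log p) ^ 2 / p * Real.cos (c * Real.log p) := by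
      rw [Finset.mul_sum]
      refine Finset.sum_congr rfl fun p _ => ?_
      unfold Wp
      ring
    have h3 : 4 / Real.pi ^ 2 ≤ 1 := by
      rw [div_le_one (by positivity)]; nlinarith
    rw [e2, abs_mul, abs_of_nonneg (show 0 ≤ 4 / Real.pi ^ 2 by positivity)]
    calc 4 / Real.pi ^ 2 * |∑ p ∈ Prm (XK κ T), Real.sin (h / 2 * Real.log p) ^ 2 / p *
          Real.cos (c * Real.log p)| ≤ 1 * (1 / 4) :=
          mul_le_mul h3 htw1 (abs_nonneg _) (by norm_num)
      _ = 1 / 4 := one_mul _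
  have h3 : |∑ p ∈ Prm (XK κ T), (Wp h p - rc l h p ^ 2) * Real.cos (c * Real.log p)| ≤
      ∑ p ∈ Prm (XK κ T), (Wp h p - rc l h p ^ 2) := by
    refine (Finset.abs_sum_le_sum_abs _ _).trans (Finset.sum_le_sum fun p hp => ?_)
    have h4 : 0 ≤ Wp h p - rc l h p ^ 2 := by
      have := rc_prime_le hl0 h p (mem_Prm.1 hp).1
      unfold Wp
      linarith
    rw [abs_mul, abs_of_nonneg h4]
    exact mul_le_of_le_one_right h4 (Real.abs_cos_le_one _)
  rw [e1]
  have h4 : h ^ 2 ≤ (1 / 2000) ^ 2 := pow_le_pow_left₀ hh1.le hT3.le 2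
  have h5 := abs_sub (∑ p ∈ Prm (XK κ T), Wp h p * Real.cos (c * Real.log p))
    (∑ p ∈ Prm (XK κ T), (Wp h p - rc l h p ^ 2) * Real.cos (c * Real.log p))
  linarith

end Pool.Agent.Y743.AF
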