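import Pool.Agent.Y743.AF.Core
import Pool.Agent.Y743.AF.Cnt
import Pool.Agent.Y474.AF.CR2
import Pool.Agent.Y762.AF.Cr1
import Pool.Agent.Y762.AF.Match
import Pool.Agent.Y287.AF.Triv
import Pool.Agent.Y726.AFTM
import Pool.Agent.Y726.AFTW

/-! Project AF: affine copies of the set of ordinates. -/

set_option autoImplicit false

namespace Pool.Agent.Y743.AF

open Filter Topology MeasureTheory
open SG (NZ ord)

lemma cnt_win {N : ℕ} {x y : ℝ} (hxy : x ≤ y) (hy : y < ord N) (hN : 1 ≤ N) :
    (((Finset.Icc 1 N).filter (fun n => x < ord n ∧ ord n ≤ y)).card : ℝ) = (NZ y : ℝ) - NZ x := by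
  have h1 : NZ x ≤ NZ y := SG.NZ_mono hxy
  have h2 : NZ y < N := by
    by_contra h
    push Not at h
    have := (SG.ord_le_iff hN y).2 h
    linarith
  have h3 : (Finset.Icc 1 N).filter (fun n => x < ord n ∧ ord n ≤ y) = Finset.Ioc (NZ x) (NZ y) := by
    ext n
    rw [Finset.mem_filter, Finset.mem_Icc, Finset.mem_Ioc]
    constructor
    · rintro ⟨⟨hn, _⟩, h4, h5⟩
      refine ⟨?_, (SG.ord_le_iff hn y).1 h5⟩
      by_contra h
      push Not at h
      have := (SG.ord_le_iff hn x).2 h
      linarith
    · rintro ⟨h4, h5⟩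
      have hn : 1 ≤ n := by omega
      refine ⟨⟨hn, by omega⟩, ?_, (SG.ord_le_iff hn y).2 h5⟩
      by_contra h
      push Not at h
      have := (SG.ord_le_iff hn x).1 h
      omega
  rw [h3, Nat.card_Ioc, Nat.cast_sub h1]

theorem affine : ∃ κ : ℝ, 0 < κ ∧ ∀ lam c : ℝ, (lam ≠ 1 ∨ c ≠ 0) → ∀ᶠ N : ℕ in atTop, ∀ σ : ℕ → ℕ,
    (∀ n ∈ Finset.Icc 1 N, σ n ∈ Finset.Icc 1 N) → Set.InjOn σ (Finset.Icc 1 N) →
    κ * N ≤ (((Finset.Icc 1 N).filter
      (fun n => κ / Real.log N ≤ |ord (σ n) - (lam * ord n + c)|)).card : ℝ) := by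
  obtain ⟨a, δ, ha, hδ0, hδ, hcore⟩ := core_low (Pool.Agent.Y726.TW.tw Pool.Agent.Y726.TM.tm)
    Pool.Agent.Y762.AF.Cr1.cr1 Pool.Agent.Y474.CR2.cr2
  obtain ⟨C, T1, hC, hT1, hup⟩ := SP.PosProp.NZ_up
  obtain ⟨T2, hlow⟩ := W200.HW.NZ_lower (1 / 2) (by norm_num)
  have hpi := Real.pi_gt_three
  have hpi0 := Real.pi_pos
  set κ : ℝ := min (δ / 4) (1 / (8 * (C + 1) * (2 * Real.pi * a + 1))) with hκ
  have hκ0 : 0 < κ := lt_min (by positivity) (by positivity)
  have hκ1 : κ ≤ δ / 4 := min_le_left _ _
  have hκ2 : κ * (8 * (C + 1) * (2 * Real.pi * a + 1)) ≤ 1 := by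
    have := min_le_right (δ / 4) (1 / (8 * (C + 1) * (2 * Real.pi * a + 1)))
    rw [← hκ, le_div_iff₀ (by positivity)] at this
    exact this
  refine ⟨κ, hκ0, fun lam c hlc => ?_⟩
  rcases le_total |lam - 1| δ with hl | hl
  swap
  · -- slopes away from one
    have h1 := Pool.Agent.Y287.AF.triv ord ord_monotone SG.ord_tendsto ord_ratio δ lam c hδ0
      (by linarith) hl
    filter_upwards [h1, eventually_ge_atTop 3] with N hN hN3 σ hσ hσi
    have h2 := hN σ hσ hσi
    have hN3' : (3 : ℝ) ≤ N := by exact_mod_cast hN3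
    have hlog : 1 ≤ Real.log N := by
      rw [Real.le_log_iff_exp_le (by linarith)]
      linarith [Real.exp_one_lt_d9]
    have h3 : κ / Real.log N ≤ 1 := by
      rw [div_le_one (by linarith)]
      linarith
    have h4 : (Finset.Icc 1 N).filter (fun n => 1 ≤ |ord (σ n) - (lam * ord n + c)|) ⊆
        (Finset.Icc 1 N).filter (fun n => κ / Real.log N ≤ |ord (σ n) - (lam * ord n + c)|) := by
      intro n hn
      rw [Finset.mem_filter] at hn ⊢
      exact ⟨hn.1, h3.trans hn.2⟩
    have h5 : (((Finset.Icc 1 N).filter (fun n => 1 ≤ |ord (σ n) - (lam * ord n + c)|)).card : ℝ) ≤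
        (((Finset.Icc 1 N).filter
          (fun n => κ / Real.log N ≤ |ord (σ n) - (lam * ord n + c)|)).card : ℝ) := by
      exact_mod_cast Finset.card_le_card h4
    have h6 : κ * N ≤ δ / 4 * N := mul_le_mul_of_nonneg_right hκ1 (by linarith)
    linarith
  · -- slopes close to one
    have hl' := abs_le.1 hl
    have hlam0 : 0 < lam := by linarith [hl'.1]
    have hlam1 : 31 / 32 ≤ lam := by linarith [hl'.1]
    have hTT : Tendsto (fun N : ℕ => ord N / 2) atTop atTop :=
      SG.ord_tendsto.atTop_div_const (by norm_num)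
    have hNlog : Tendsto (fun N : ℕ => Real.log (N : ℝ)) atTop atTop :=
      Real.tendsto_log_atTop.comp tendsto_natCast_atTop_atTop
    filter_upwards [hTT.eventually (hcore lam c hl hlc), hTT.eventually_ge_atTop T1,
      hTT.eventually_ge_atTop (32 * (|c| + 2) + 10),
      (Real.tendsto_log_atTop.comp hTT).eventually_ge_atTop (4 * Real.pi * a + 1),
      eventually_ge_atTop 1, hTT.eventually_ge_atTop T2] with N h1 h2 h3 h4 hN1 h6 σ hσ hσi
    by_contra hcon
    push Not at hcon
    set T : ℝ := ord N / 2 with hT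
    have hoN : ord N = 2 * T := by rw [hT]; ring
    have hT10 : 10 ≤ T := by
      have := abs_nonneg c
      linarith
    have hT0 : 0 < T := by linarith
    set L := Real.log T with hL
    have hL1 : 4 * Real.pi * a + 1 ≤ L := h4
    have hL0 : 0 < L := by
      have : 0 < 4 * Real.pi * a := by positivity
      linarith
    set h : ℝ := 2 * Real.pi * a / L with hh
    have hh0 : 0 < h := by positivity
    have hh1 : h ≤ 1 / 2 := by
      rw [hh, div_le_iff₀ hL0]; linarith
    have hc := abs_nonneg c
    have hc1 := le_abs_self c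
    have hc2 := neg_abs_le c
    have hNr : (1 : ℝ) ≤ N := by exact_mod_cast hN1
    -- `N` and `T`
    have hNup : (N : ℝ) ≤ C * (T * L) := by
      have h7 : N ≤ NZ (ord N) := SG.le_NZ_ord hN1
      rw [hoN] at h7
      have h8 : (N : ℝ) ≤ NZ (2 * T) := by exact_mod_cast h7
      exact h8.trans (hup T h2)
    have hNT : L ≤ Real.log N := by
      apply Real.log_le_log hT0
      have k1 := hlow (2 * T - 1) (by linarith)
      have k2 := NZ_pred_le hN1
      rw [hoN] at k2
      have k3 : L ≤ Real.log (2 * T - 1) := Real.log_le_log hT0 (by linarith)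
      have k4 : 4 * Real.pi ≤ L := by
        have : 4 * Real.pi * 1 ≤ 4 * Real.pi * a := mul_le_mul_of_nonneg_left ha (by positivity)
        linarith
      have k5 : T / (2 * Real.pi) * (4 * Real.pi) ≤ (2 * T - 1) / (2 * Real.pi) *
          Real.log (2 * T - 1) := by
        apply mul_le_mul _ (k4.trans k3) (by positivity)
        · have : 0 < 2 * T - 1 := by linarith
          positivity
        · exact div_le_div_of_nonneg_right (by linarith) (by positivity)
      have k6 : T / (2 * Real.pi) * (4 * Real.pi) = 2 * T := by field_simp; ring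
      linarith
    set η : ℝ := κ / Real.log N with hη
    have hlogN : 0 < Real.log N := lt_of_lt_of_le hL0 hNT
    have hη0 : 0 < η := by positivity
    have hm := Pool.Agent.Y762.AF.Match.matching N ord σ lam c h η (5 / 4 * T) (7 / 4 * T) hσ hσi hh0.le
      hη0.le (by linarith)
    -- identify the counts
    have hcongr : ∫ t in (5 / 4 * T)..(7 / 4 * T),
        |((NZ (t + h) : ℝ) - NZ t) - ((NZ ((t - c) / lam + h / lam) : ℝ) - NZ ((t - c) / lam))| =
        ∫ t in (5 / 4 * T)..(7 / 4 * T),
        |(((Finset.Icc 1 N).filter (fun n => t < ord n ∧ ord n ≤ t + h)).card : ℝ) -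
          (((Finset.Icc 1 N).filter
            (fun n => t < lam * ord n + c ∧ lam * ord n + c ≤ t + h)).card : ℝ)| := by
      refine intervalIntegral.integral_congr fun t ht => ?_
      rw [Set.uIcc_of_le (by linarith)] at ht
      obtain ⟨ht1, ht2⟩ := ht
      have e1 := cnt_win (N := N) (x := t) (y := t + h) (by linarith) (by rw [hoN]; linarith) hN1
      have e2 := cnt_win (N := N) (x := (t - c) / lam) (y := (t - c) / lam + h / lam)
        (by have : 0 < h / lam := by positivity
            linarith) (by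
          rw [hoN, ← add_div, div_lt_iff₀ hlam0]
          have : 2 * T * (31 / 32) ≤ 2 * T * lam := mul_le_mul_of_nonneg_left hlam1 (by linarith)
          linarith) hN1
      have e3 : (Finset.Icc 1 N).filter (fun n => t < lam * ord n + c ∧ lam * ord n + c ≤ t + h) =
          (Finset.Icc 1 N).filter
            (fun n => (t - c) / lam < ord n ∧ ord n ≤ (t - c) / lam + h / lam) := by
        apply Finset.filter_congr
        intro n _
        rw [← add_div, div_lt_iff₀ hlam0, le_div_iff₀ hlam0]
        constructor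
        · rintro ⟨k1, k2⟩; constructor <;> linarith
        · rintro ⟨k1, k2⟩; constructor <;> linarith
      show |((NZ (t + h) : ℝ) - NZ t) - ((NZ ((t - c) / lam + h / lam) : ℝ) - NZ ((t - c) / lam))| = _
      rw [e3, e1, e2]
    have h1' : T / 2 ≤ ∫ t in (5 / 4 * T)..(7 / 4 * T),
        |((NZ (t + h) : ℝ) - NZ t) -
          ((NZ ((t - c) / lam + h / lam) : ℝ) - NZ ((t - c) / lam))| := h1
    rw [hcongr] at h1'
    have h7 := h1'.trans hm
    -- the right hand side is small
    have h8 : (((Finset.Icc 1 N).filter (fun n => η < |ord (σ n) - (lam * ord n + c)|)).card : ℝ) ≤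
        κ * N := by
      refine le_trans ?_ hcon.le
      have : (Finset.Icc 1 N).filter (fun n => η < |ord (σ n) - (lam * ord n + c)|) ⊆
          (Finset.Icc 1 N).filter (fun n => η ≤ |ord (σ n) - (lam * ord n + c)|) := by
        intro n hn
        rw [Finset.mem_filter] at hn ⊢
        exact ⟨hn.1, hn.2.le⟩
      exact_mod_cast Finset.card_le_card this
    have h9 : 2 * h * (((Finset.Icc 1 N).filter
        (fun n => η < |ord (σ n) - (lam * ord n + c)|)).card : ℝ) ≤ 4 * Real.pi * a * κ * C * T := by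
      calc 2 * h * (((Finset.Icc 1 N).filter
          (fun n => η < |ord (σ n) - (lam * ord n + c)|)).card : ℝ) ≤ 2 * h * (κ * (C * (T * L))) := by
            apply mul_le_mul_of_nonneg_left _ (by positivity)
            exact h8.trans (mul_le_mul_of_nonneg_left hNup hκ0.le)
        _ = 4 * Real.pi * a * κ * C * T := by rw [hh]; field_simp; ring
    have h10 : 2 * η * N ≤ 2 * κ * C * T := by
      have k1 : η ≤ κ / L := div_le_div_of_nonneg_left hκ0.le hL0 hNT
      calc 2 * η * N ≤ 2 * (κ / L) * (C * (T * L)) := by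
            apply mul_le_mul _ hNup (by positivity) (by positivity)
            linarith
        _ = 2 * κ * C * T := by field_simp
    have h11 : 4 * Real.pi * a * κ * C * T + 2 * κ * C * T ≤ T / 4 := by
      have k1 : κ * C * (8 * (2 * Real.pi * a + 1)) ≤ 1 := by
        refine le_trans ?_ hκ2
        have : 0 ≤ κ * (8 * (2 * Real.pi * a + 1)) := by positivity
        nlinarith
      have k2 := mul_le_mul_of_nonneg_left k1 hT0.le
      nlinarith
    linarith

end Pool.Agent.Y743.AF
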