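import Mathlib

/-! Project AF (helper743): no affine map except the identity maps almost all ordinates of zeta zeros
(almost) to ordinates.  Statements of the tasks; everything here uses Mathlib only. -/

set_option autoImplicit false

open MeasureTheory Filter

namespace Pool.Agent.Y743.AF

/-- the primes up to `X` -/
def Prm (X : ℕ) : Finset ℕ := (Finset.Icc 1 X).filter Nat.Prime

/-- TM: the twisted Mertens sum is bounded. -/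
def S_TM : Prop := ∀ c : ℝ, c ≠ 0 → ∃ C : ℝ, ∀ N : ℕ,
  |∑ p ∈ Prm N, Real.log p / p * Real.cos (c * Real.log p)| ≤ C

/-- TW: a smooth twisted sum over the primes is small. -/
def S_TW : Prop := ∀ c M ε : ℝ, c ≠ 0 → 0 < ε → ∃ h0 : ℝ, 0 < h0 ∧ ∀ h : ℝ, 0 < h → h < h0 →
  ∀ X : ℕ, h * Real.log X ≤ M →
    |∑ p ∈ Prm X, Real.sin (h / 2 * Real.log p) ^ 2 / p * Real.cos (c * Real.log p)| ≤ ε

/-- CR1: prime polynomials at the points `t` and `t / lam`, `lam ≠ 1`, are uncorrelated. -/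
def S_CR1 : Prop := ∀ lam ε : ℝ, 0 < lam → lam ≠ 1 → 0 < ε → ∃ η T0 : ℝ, 0 < η ∧ 1 ≤ T0 ∧
  ∀ T : ℝ, T0 ≤ T → ∀ X : ℕ, (X : ℝ) ≤ T ^ (1 / 8 : ℝ) → ∀ u v : ℕ → ℝ,
    (∀ p : ℕ, p.Prime → |u p| ≤ 1 / Real.sqrt p ∧ |u p| ≤ η * Real.log p) →
    (∀ p : ℕ, p.Prime → |v p| ≤ 1 / Real.sqrt p ∧ |v p| ≤ η * Real.log p) →
    ∀ A B b d : ℝ, A ≤ B → B - A ≤ T →
      |∫ t in A..B, (∑ p ∈ Prm X, u p * Real.cos ((t + b) * Real.log p)) *
        (∑ q ∈ Prm X, v q * Real.cos ((t + d) / lam * Real.log q))| ≤ ε * T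

/-- CR2: the correlation of two prime polynomials at the points `t + b` and `t + d`. -/
def S_CR2 : Prop := ∀ (X : ℕ) (u v : ℕ → ℝ), (∀ p, |u p| ≤ 1) → (∀ p, |v p| ≤ 1) →
    ∀ A B b d : ℝ, A ≤ B →
      |(∫ t in A..B, (∑ p ∈ Prm X, u p * Real.cos ((t + b) * Real.log p)) *
        (∑ q ∈ Prm X, v q * Real.cos ((t + d) * Real.log q))) -
        (B - A) / 2 * ∑ p ∈ Prm X, u p * v p * Real.cos ((b - d) * Real.log p)| ≤ 4 * (X : ℝ) ^ 3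

/-- MATCH: counting in windows under a matching. -/
def S_MATCH : Prop := ∀ (N : ℕ) (g : ℕ → ℝ) (σ : ℕ → ℕ) (lam c h η A B : ℝ),
  (∀ n ∈ Finset.Icc 1 N, σ n ∈ Finset.Icc 1 N) → Set.InjOn σ (Finset.Icc 1 N) →
  0 ≤ h → 0 ≤ η → A ≤ B →
    ∫ t in A..B, |(((Finset.Icc 1 N).filter (fun n => t < g n ∧ g n ≤ t + h)).card : ℝ) -
      (((Finset.Icc 1 N).filter (fun n => t < lam * g n + c ∧ lam * g n + c ≤ t + h)).card : ℝ)| ≤
    2 * h * (((Finset.Icc 1 N).filter (fun n => η < |g (σ n) - (lam * g n + c)|)).card : ℝ) +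
      2 * η * N

/-- TRIV: slopes away from `1`. -/
def S_TRIV : Prop := ∀ g : ℕ → ℝ, Monotone g → Tendsto g atTop atTop →
  (∀ θ C ρ : ℝ, 0 < θ → θ < 1 → 0 < ρ → ∀ᶠ N : ℕ in atTop,
    (((Finset.Icc 1 N).filter (fun n => g n ≤ θ * g N + C)).card : ℝ) ≤ (θ + ρ) * N) →
  ∀ δ lam c : ℝ, 0 < δ → δ < 1 → δ ≤ |lam - 1| → ∀ᶠ N : ℕ in atTop, ∀ σ : ℕ → ℕ,
    (∀ n ∈ Finset.Icc 1 N, σ n ∈ Finset.Icc 1 N) → Set.InjOn σ (Finset.Icc 1 N) →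
    δ / 4 * N ≤ (((Finset.Icc 1 N).filter (fun n => 1 ≤ |g (σ n) - (lam * g n + c)|)).card : ℝ)

end Pool.Agent.Y743.AF
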