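import Pool.Agent.Y743.CL.Cb
import Pool.Agent.Y743.AF.Stm

/-! Project AF: the prime polynomials and their coefficients. -/

set_option autoImplicit false

namespace Pool.Agent.Y743.AF

open Complex Filter Topology MeasureTheory Set
open Pool.Agent.TH850.UV
open Pool.Agent.Y743.CL (G pr pr_apply Pr mem_Pr rc rc_sq kap_bd VS XK rc_bd)

/-- the real prime polynomial -/
noncomputable def PP (c : ℕ → ℝ) (X : ℕ) (t : ℝ) : ℝ := ∑ p ∈ Prm X, c p * Real.cos (t * Real.log p)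

lemma PP_cont (c : ℕ → ℝ) (X : ℕ) : Continuous (PP c X) := by
  unfold PP; fun_prop

lemma mem_Prm {X p : ℕ} : p ∈ Prm X ↔ p.Prime ∧ p ≤ X := by
  unfold Prm
  rw [Finset.mem_filter, Finset.mem_Icc]
  constructor
  · rintro ⟨⟨_, h2⟩, h3⟩; exact ⟨h3, h2⟩
  · rintro ⟨h1, h2⟩; exact ⟨⟨h1.one_le, h2⟩, h1⟩

lemma G_re (c : ℕ → ℝ) (X : ℕ) (t : ℝ) : (G c X t).re = PP c X t := by
  unfold G Pool.Agent.Y41.SW.DP PP Prm
  rw [Complex.re_sum, Finset.sum_filter]
  refine Finset.sum_congr rfl fun n hn => ?_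
  rw [Finset.mem_Icc] at hn
  rw [pr_apply]
  by_cases hp : n.Prime
  · rw [if_pos ⟨hp, hn.2⟩, if_pos hp, Complex.re_ofReal_mul]
    have hn0 : (0 : ℝ) < n := by exact_mod_cast hp.pos
    have hnC : (n : ℂ) ≠ 0 := by exact_mod_cast hp.ne_zero
    have e1 : (n : ℂ) ^ (-(t : ℂ) * I) = cexp (((-(t * Real.log n) : ℝ) : ℂ) * I) := by
      rw [Complex.cpow_def_of_ne_zero hnC, ← Complex.natCast_log]
      congr 1
      push_cast
      ring
    rw [e1, Complex.exp_ofReal_mul_I_re, Real.cos_neg]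
  · rw [if_neg (fun h => hp h.1), if_neg hp]
    simp

lemma PP_le (c : ℕ → ℝ) (X : ℕ) (t : ℝ) : |PP c X t| ≤ ‖G c X t‖ := by
  rw [← G_re]; exact Complex.abs_re_le_norm _

lemma VS_eq' (c : ℕ → ℝ) (X : ℕ) : VS c X = ∑ p ∈ Prm X, c p ^ 2 := by
  unfold VS
  refine Finset.sum_congr ?_ fun _ _ => rfl
  ext p
  rw [mem_Pr, mem_Prm]

/-- the square of the coefficients at the primes -/
lemma rc_prime {l : ℝ} (hl : 0 < l) (h : ℝ) (p : ℕ) (hp : p.Prime) :
    rc l h p ^ 2 = 2 / Real.pi ^ 3 * (Real.sin (h / 2 * Real.log p) ^ 2 / p) * (l * ggo l p) ^ 2 := by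
  have hp0 : (0 : ℝ) < p := by exact_mod_cast hp.pos
  have hlog : 0 < Real.log p := Real.log_pos (by exact_mod_cast hp.one_lt)
  have hpi := Real.pi_pos
  rw [rc_sq l h p hp.two_le, kap_sq hl h p hp.two_le, ArithmeticFunction.vonMangoldt_apply_prime hp]
  have e : 1 - Real.cos (h * Real.log p) = 2 * Real.sin (h / 2 * Real.log p) ^ 2 := by
    have h1 := Real.cos_two_mul (h / 2 * Real.log p)
    have h2 := Real.sin_sq_add_cos_sq (h / 2 * Real.log p)
    have h3 : 2 * (h / 2 * Real.log p) = h * Real.log p := by ring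
    rw [h3] at h1
    linarith
  rw [e]
  field_simp

lemma lg_nonneg {l : ℝ} (hl : 0 < l) (n : ℕ) : 0 ≤ l * ggo l n := mul_nonneg hl.le (ggo_nonneg l n)

lemma lg_le {l : ℝ} (hl : 0 < l) (n : ℕ) : (l * ggo l n) ^ 2 ≤ 2 * Real.pi := by
  have h5 := ggo_le hl n
  rw [le_div_iff₀ hl] at h5
  calc (l * ggo l n) ^ 2 ≤ Real.sqrt (2 * Real.pi) ^ 2 :=
        pow_le_pow_left₀ (lg_nonneg hl n) (by linarith) 2
    _ = 2 * Real.pi := Real.sq_sqrt (by positivity)

lemma rc_prime_le {l : ℝ} (hl : 0 < l) (h : ℝ) (p : ℕ) (hp : p.Prime) :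
    rc l h p ^ 2 ≤ 4 / Real.pi ^ 2 * (Real.sin (h / 2 * Real.log p) ^ 2 / p) := by
  have hp0 : (0 : ℝ) < p := by exact_mod_cast hp.pos
  have hpi := Real.pi_pos
  rw [rc_prime hl h p hp]
  calc 2 / Real.pi ^ 3 * (Real.sin (h / 2 * Real.log p) ^ 2 / p) * (l * ggo l p) ^ 2
      ≤ 2 / Real.pi ^ 3 * (Real.sin (h / 2 * Real.log p) ^ 2 / p) * (2 * Real.pi) :=
        mul_le_mul_of_nonneg_left (lg_le hl p) (by positivity)
    _ = _ := by field_simp; ring

lemma rc_abs_le {l : ℝ} (hl : 0 < l) (h : ℝ) (p : ℕ) (hp : p.Prime) :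
    |rc l h p| ≤ 1 / Real.sqrt p := by
  have hp0 : (0 : ℝ) < p := by exact_mod_cast hp.pos
  have hpi := Real.pi_gt_three
  refine abs_le_of_sq_le_sq ?_ (by positivity)
  refine (rc_prime_le hl h p hp).trans ?_
  rw [div_pow, one_pow, Real.sq_sqrt hp0.le]
  have h1 := Real.sin_sq_le_one (h / 2 * Real.log p)
  have h2 : 4 / Real.pi ^ 2 ≤ 1 := by
    rw [div_le_one (by positivity)]; nlinarith
  calc 4 / Real.pi ^ 2 * (Real.sin (h / 2 * Real.log p) ^ 2 / p) ≤ 1 * (1 / p) := by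
        apply mul_le_mul h2 _ (by positivity) (by norm_num)
        exact div_le_div_of_nonneg_right h1 hp0.le
    _ = 1 / p := one_mul _

lemma rc_abs_le' {l : ℝ} (hl : 0 < l) {h : ℝ} (hh : 0 ≤ h) (p : ℕ) (hp : p.Prime) :
    |rc l h p| ≤ h * Real.log p := by
  have hp1 : (1 : ℝ) ≤ p := by exact_mod_cast hp.one_le
  have hp0 : (0 : ℝ) < p := by linarith
  have hlog : 0 ≤ Real.log p := Real.log_nonneg hp1
  have hpi := Real.pi_gt_three
  refine abs_le_of_sq_le_sq ?_ (by positivity)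
  refine (rc_prime_le hl h p hp).trans ?_
  have h1 : Real.sin (h / 2 * Real.log p) ^ 2 ≤ (h / 2 * Real.log p) ^ 2 := by
    rw [sq_le_sq]
    exact Real.abs_sin_le_abs
  have h2 : 4 / Real.pi ^ 2 ≤ 1 := by
    rw [div_le_one (by positivity)]; nlinarith
  calc 4 / Real.pi ^ 2 * (Real.sin (h / 2 * Real.log p) ^ 2 / p)
      ≤ 1 * ((h / 2 * Real.log p) ^ 2 / 1) := by
        apply mul_le_mul h2 _ (by positivity) (by norm_num)
        exact div_le_div₀ (by positivity) h1 one_pos hp1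
    _ ≤ (h * Real.log p) ^ 2 := by
        have : (h / 2 * Real.log p) ^ 2 = (h * Real.log p) ^ 2 / 4 := by ring
        rw [one_mul, div_one, this]
        have := sq_nonneg (h * Real.log p)
        linarith

/-- the deviation of the coefficients from their ideal values -/
lemma rc_dev {l : ℝ} (hl : 1 ≤ l) (h : ℝ) (p : ℕ) (hp : p.Prime) (hpl : Real.log p ≤ l / 2) :
    4 / Real.pi ^ 2 * (Real.sin (h / 2 * Real.log p) ^ 2 / p) - rc l h p ^ 2 ≤
      32 * ((1 + Real.log p) / l + 1 / p) *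
        (4 / Real.pi ^ 2 * (Real.sin (h / 2 * Real.log p) ^ 2 / p)) := by
  have hl0 : 0 < l := by linarith
  have hp0 : (0 : ℝ) < p := by exact_mod_cast hp.pos
  have hpi := Real.pi_pos
  have hpi3 := Real.pi_gt_d2
  have hlog : 0 ≤ Real.log p := Real.log_nonneg (by exact_mod_cast hp.one_le)
  have h1 := ggo_low hl p hp.one_le hpl
  have h2 := lg_nonneg hl0 p
  rw [rc_prime hl0 h p hp]
  set e : ℝ := (1 + Real.log p) / l + 1 / p with he
  have he0 : 0 ≤ e := by positivity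
  set s : ℝ := Real.sqrt (2 * Real.pi) with hs
  have hs2 : s ^ 2 = 2 * Real.pi := Real.sq_sqrt (by positivity)
  have hs0 : 0 < s := Real.sqrt_pos.2 (by positivity)
  set W : ℝ := Real.sin (h / 2 * Real.log p) ^ 2 / p with hW
  have hW0 : 0 ≤ W := by positivity
  -- `(l ggo)² ≥ 2 π - 80 s e`
  have h3 : 2 * Real.pi - 80 * s * e ≤ (l * ggo l p) ^ 2 := by
    rcases le_or_gt 0 (s - 40 * e) with h4 | h4
    · have h5 : (s - 40 * e) ^ 2 ≤ (l * ggo l p) ^ 2 := pow_le_pow_left₀ h4 h1 2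
      nlinarith [sq_nonneg e]
    · have h5 : s * s ≤ s * (40 * e) := mul_le_mul_of_nonneg_left (by linarith) hs0.le
      have h6 := sq_nonneg (l * ggo l p)
      nlinarith
  have hs3 : 80 * s ≤ 64 * Real.pi := by
    have : s ≤ 4 / 5 * Real.pi := by
      rw [hs]
      apply Real.sqrt_le_iff.2
      constructor
      · positivity
      · nlinarith
    linarith
  have h4 : 80 * s * e ≤ 64 * Real.pi * e := mul_le_mul_of_nonneg_right hs3 he0
  have h5 : 2 * Real.pi - 64 * Real.pi * e ≤ (l * ggo l p) ^ 2 := by linarith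
  have h6 : 2 / Real.pi ^ 3 * W * (2 * Real.pi - 64 * Real.pi * e) ≤
      2 / Real.pi ^ 3 * W * (l * ggo l p) ^ 2 := mul_le_mul_of_nonneg_left h5 (by positivity)
  have h7 : 2 / Real.pi ^ 3 * W * (2 * Real.pi - 64 * Real.pi * e) =
      4 / Real.pi ^ 2 * W - 32 * e * (4 / Real.pi ^ 2 * W) := by
    field_simp
    ring
  linarith

end Pool.Agent.Y743.AF
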