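import Pool.Agent.Y743.AF.Fin

/-! Project AF: the exact version for the set of the ordinates. -/

set_option autoImplicit false

namespace Pool.Agent.Y743.AF

open Filter Topology MeasureTheory
open SG (NZ ord)

/-- the positive ordinates of the nontrivial zeros -/
def Om : Set ℝ := {x | 0 < x ∧ ∃ s : ℂ, riemannZeta s = 0 ∧ 0 < s.re ∧ s.re < 1 ∧ s.im = x}

lemma exists_ord {x : ℝ} (hx : x ∈ Om) : ∃ n : ℕ, 1 ≤ n ∧ ord n = x := by
  obtain ⟨hx0, s, hs0, hs1, hs2, hs3⟩ := hx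
  have h1 := SG.ord_count x hx0
  by_contra hcon
  push Not at hcon
  have h2 : {n : ℕ | 1 ≤ n ∧ ord n = x} = ∅ := by
    ext n
    simp only [Set.mem_ofPred_eq, Set.mem_empty_iff_false, iff_false, not_and]
    intro h
    exact hcon n h
  rw [h2, Set.ncard_empty] at h1
  have hfin : {s : ℂ | riemannZeta s = 0 ∧ 0 < s.re ∧ s.re < 1 ∧ s.im = x}.Finite := by
    refine (H370.zset_finite' H370.good_zeta (x / 2) x (by linarith)).subset ?_
    rintro s ⟨k1, k2, k3, k4⟩
    exact ⟨k2, k3, by linarith, k4.le, k1⟩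
  rw [finsum_mem_eq_finite_toFinset_sum _ hfin] at h1
  have h3 := (Finset.sum_eq_zero_iff.1 h1.symm) s (hfin.mem_toFinset.2 ⟨hs0, hs1, hs2, hs3⟩)
  have h4 : 1 ≤ H370.mult riemannZeta s := H370.Loc.mult_pos' H370.good_zeta (by linarith) hs0
  have h5 : H370.mult riemannZeta s = 0 := h3
  omega

theorem sets {κ : ℝ} (hκ : 0 < κ) {lam c : ℝ} (hlam : lam ≠ 0)
    (h : ∀ᶠ N : ℕ in atTop, ∀ σ : ℕ → ℕ,
      (∀ n ∈ Finset.Icc 1 N, σ n ∈ Finset.Icc 1 N) → Set.InjOn σ (Finset.Icc 1 N) →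
      κ * N ≤ (((Finset.Icc 1 N).filter
        (fun n => κ / Real.log N ≤ |ord (σ n) - (lam * ord n + c)|)).card : ℝ)) :
    ∀ᶠ T : ℝ in atTop, ({x : ℝ | x ∈ Om ∧ x ≤ T ∧ lam * x + c ∈ Om ∧ lam * x + c ≤ T}.ncard : ℝ) ≤
      (1 - κ) * NZ T := by
  classical
  have hNZ : Tendsto NZ atTop atTop := by
    rw [tendsto_atTop]
    intro b
    filter_upwards [eventually_ge_atTop (ord (b + 1))] with T hT
    have := (SG.ord_le_iff (show 1 ≤ b + 1 by omega) T).1 hT
    omega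
  filter_upwards [hNZ.eventually (h.and (eventually_ge_atTop 3))] with T hT
  obtain ⟨hN, hN3⟩ := hT
  set N := NZ T with hNdef
  choose! ι hι1 hι2 using fun (x : ℝ) (hx : x ∈ Om) => exists_ord hx
  set A : Set ℝ := {x : ℝ | x ∈ Om ∧ x ≤ T ∧ lam * x + c ∈ Om ∧ lam * x + c ≤ T} with hA
  have hmem : ∀ x ∈ Om, x ≤ T → ι x ∈ Finset.Icc 1 N := by
    intro x hx hxT
    rw [Finset.mem_Icc]
    refine ⟨hι1 x hx, ?_⟩
    apply (SG.ord_le_iff (hι1 x hx) T).1
    rw [hι2 x hx]; exact hxT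
  have hinj : Set.InjOn ι Om := by
    intro x hx y hy hxy
    rw [← hι2 x hx, ← hι2 y hy, hxy]
  have hAsub : ι '' A ⊆ (Finset.Icc 1 N : Finset ℕ) := by
    rintro _ ⟨x, hx, rfl⟩
    exact hmem x hx.1 hx.2.1
  have hfin : (ι '' A).Finite := (Finset.finite_toSet _).subset hAsub
  have hcard : A.ncard = hfin.toFinset.card := by
    rw [← Set.ncard_image_of_injOn (hinj.mono fun x hx => hx.1), Set.ncard_eq_toFinset_card _ hfin]
  set S : Finset ℕ := hfin.toFinset with hS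
  have hSmem : ∀ n ∈ S, ∃ x ∈ A, ι x = n := by
    intro n hn
    rw [hS, Set.Finite.mem_toFinset] at hn
    exact hn
  have hSord : ∀ n ∈ S, ord n ∈ A ∧ ι (ord n) = n := by
    intro n hn
    obtain ⟨x, hx, rfl⟩ := hSmem n hn
    rw [hι2 x hx.1]
    exact ⟨hx, rfl⟩
  have hSsub : S ⊆ Finset.Icc 1 N := by
    intro n hn
    obtain ⟨x, hx, rfl⟩ := hSmem n hn
    exact hmem x hx.1 hx.2.1
  -- the extension to a permutation
  set α := {n : ℕ // n ∈ Finset.Icc 1 N}
  set f : α → ℕ := fun n => ι (lam * ord n + c) with hf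
  set s : Finset α := Finset.univ.filter (fun n : α => (n : ℕ) ∈ S) with hs
  have h1 : Finset.image f s ⊆ Finset.Icc 1 N := by
    intro m hm
    rw [Finset.mem_image] at hm
    obtain ⟨n, hn, rfl⟩ := hm
    have hnS : (n : ℕ) ∈ S := (Finset.mem_filter.1 hn).2
    obtain ⟨h2, _⟩ := hSord _ hnS
    exact hmem _ h2.2.2.1 h2.2.2.2
  have h2 : Set.InjOn f s := by
    intro n hn m hm hnm
    have hnS : (n : ℕ) ∈ S := (Finset.mem_filter.1 hn).2
    have hmS : (m : ℕ) ∈ S := (Finset.mem_filter.1 hm).2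
    obtain ⟨k1, k1'⟩ := hSord _ hnS
    obtain ⟨k2, k2'⟩ := hSord _ hmS
    have k3 := hinj k1.2.2.1 k2.2.2.1 hnm
    have k4 : ord n = ord m := by
      have : lam * ord n = lam * ord m := by linarith
      exact mul_left_cancel₀ hlam this
    apply Subtype.ext
    rw [← k1', ← k2', k4]
  obtain ⟨g, hg⟩ := Finset.exists_equiv_extend_of_card_eq (α := α) (t := Finset.Icc 1 N)
    (by simp [α]) h1 h2
  set σ : ℕ → ℕ := fun n => if hn : n ∈ Finset.Icc 1 N then (g ⟨n, hn⟩ : ℕ) else n with hσ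
  have hσ1 : ∀ n ∈ Finset.Icc 1 N, σ n ∈ Finset.Icc 1 N := by
    intro n hn
    simp only [hσ, dif_pos hn]
    exact (g ⟨n, hn⟩).2
  have hσ2 : Set.InjOn σ (Finset.Icc 1 N) := by
    intro n hn m hm hnm
    have hn' : n ∈ Finset.Icc 1 N := hn
    have hm' : m ∈ Finset.Icc 1 N := hm
    simp only [hσ, dif_pos hn', dif_pos hm'] at hnm
    have := g.injective (Subtype.ext hnm)
    exact congrArg Subtype.val this
  have h3 := hN σ hσ1 hσ2
  have hN3' : (3 : ℝ) ≤ N := by exact_mod_cast hN3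
  have hlog : 0 < Real.log N := Real.log_pos (by linarith)
  have h4 : (Finset.Icc 1 N).filter (fun n => κ / Real.log N ≤ |ord (σ n) - (lam * ord n + c)|) ⊆
      (Finset.Icc 1 N) \ S := by
    intro n hn
    rw [Finset.mem_filter] at hn
    rw [Finset.mem_sdiff]
    refine ⟨hn.1, fun hnS => ?_⟩
    have k1 : σ n = ι (lam * ord n + c) := by
      simp only [hσ, dif_pos hn.1]
      exact hg ⟨n, hn.1⟩ (Finset.mem_filter.2 ⟨Finset.mem_univ _, hnS⟩)
    have k2 := hn.2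
    rw [k1, hι2 _ (hSord n hnS).1.2.2.1, sub_self, abs_zero] at k2
    have : 0 < κ / Real.log N := by positivity
    linarith
  have h5 := Finset.card_le_card h4
  rw [Finset.card_sdiff_of_subset hSsub, Nat.card_Icc, Nat.add_sub_cancel] at h5
  have h6 : S.card ≤ N := by
    have := Finset.card_le_card hSsub
    rwa [Nat.card_Icc, Nat.add_sub_cancel] at this
  have h7 : (((Finset.Icc 1 N).filter
      (fun n => κ / Real.log N ≤ |ord (σ n) - (lam * ord n + c)|)).card : ℝ) ≤ N - S.card := by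
    rw [← Nat.cast_sub h6]
    exact_mod_cast h5
  rw [hcard]
  linarith

end Pool.Agent.Y743.AF
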