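import Pool.Agent.Y743.AF.Cross

/-! Project AF: lower bound for the mean of `|P₁ - P₂|`. -/

set_option autoImplicit false

namespace Pool.Agent.Y743.AF

open Complex Filter Topology MeasureTheory Set
open Pool.Agent.TH850.UV
open Pool.Agent.Y743.CL (G pr pr_apply Pr mem_Pr rc rc_sq kap_bd VS XK rc_bd mom_bd SS SS_le G_cont
  VS_nonneg)

lemma l1_low {f : ℝ → ℝ} (hf : Continuous f) {A B s : ℝ} (hAB : A ≤ B) (hs : 0 < s) :
    3 / (2 * s) * (∫ t in A..B, f t ^ 2) - 1 / (2 * s ^ 3) * (∫ t in A..B, f t ^ 4) ≤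
      ∫ t in A..B, |f t| := by
  rw [← intervalIntegral.integral_const_mul, ← intervalIntegral.integral_const_mul,
    ← intervalIntegral.integral_sub (Continuous.intervalIntegrable (by fun_prop) _ _)
      (Continuous.intervalIntegrable (by fun_prop) _ _)]
  refine intervalIntegral.integral_mono_on hAB (Continuous.intervalIntegrable (by fun_prop) _ _)
    (Continuous.intervalIntegrable (by fun_prop) _ _) fun t _ => ?_
  set y := |f t| / s with hy
  have hy0 : 0 ≤ y := by positivity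
  have h1 : |f t| = s * y := by rw [hy]; field_simp
  have h2 : f t ^ 2 = s ^ 2 * y ^ 2 := by rw [← sq_abs, h1]; ring
  have h4 : f t ^ 4 = s ^ 4 * y ^ 4 := by
    have : f t ^ 4 = (f t ^ 2) ^ 2 := by ring
    rw [this, h2]; ring
  rw [h2, h4, h1]
  have e : 3 / (2 * s) * (s ^ 2 * y ^ 2) - 1 / (2 * s ^ 3) * (s ^ 4 * y ^ 4) =
      s * (3 / 2 * y ^ 2 - 1 / 2 * y ^ 4) := by
    field_simp
  rw [e]
  apply mul_le_mul_of_nonneg_left _ hs.le
  nlinarith [mul_nonneg hy0 (mul_nonneg (sq_nonneg (y - 1)) (by linarith : 0 ≤ y + 2))]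

lemma m4 (c : ℕ → ℝ) (X : ℕ) (hX : 1 ≤ X) (T A B : ℝ) (hT : 1 ≤ T) (hAB : A ≤ B)
    (hXT : ((X ^ 4 : ℕ) : ℝ) ≤ Real.sqrt T) :
    ∫ t in A..B, PP c X t ^ 4 ≤ (B - A) * (2 * VS c X ^ 2) +
      16 * (Real.sqrt T * (1 + Real.log T)) * VS c X ^ 2 := by
  have hG := G_cont c X
  have h1 := mom_bd c X hX T A B hT hAB 2 2 hXT
  have h2 : ∫ t in A..B, PP c X t ^ 4 ≤ ∫ t in A..B, ‖G c X t‖ ^ 4 := by
    have hP := PP_cont c X
    refine intervalIntegral.integral_mono_on hAB (Continuous.intervalIntegrable (by fun_prop) _ _)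
      (Continuous.intervalIntegrable (by fun_prop) _ _) fun t _ => ?_
    have h3 := PP_le c X t
    have h4 := pow_le_pow_left₀ (abs_nonneg _) h3 4
    have h5 : |PP c X t| ^ 4 = PP c X t ^ 4 := by
      have : |PP c X t| ^ 4 = (|PP c X t| ^ 2) ^ 2 := by ring
      rw [this, sq_abs]; ring
    rwa [h5] at h4
  have h3 : (∫ t in A..B, G c X t ^ 2 * (starRingEnd ℂ) (G c X t) ^ 2) =
      ((∫ t in A..B, ‖G c X t‖ ^ 4 : ℝ) : ℂ) := by
    rw [← intervalIntegral.integral_ofReal]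
    refine intervalIntegral.integral_congr fun t _ => ?_
    change G c X t ^ 2 * (starRingEnd ℂ) (G c X t) ^ 2 = ((‖G c X t‖ ^ 4 : ℝ) : ℂ)
    rw [← mul_pow, Complex.mul_conj, Complex.normSq_eq_norm_sq]
    push_cast
    ring
  rw [h3, if_pos rfl] at h1
  have h4 : ‖((∫ t in A..B, ‖G c X t‖ ^ 4 : ℝ) : ℂ) - ((B - A : ℝ) : ℂ) * (SS c X 2 : ℂ)‖ =
      |(∫ t in A..B, ‖G c X t‖ ^ 4) - (B - A) * SS c X 2| := by
    rw [← Real.norm_eq_abs, ← Complex.norm_real]
    congr 1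
    push_cast
    ring
  rw [h4] at h1
  have h5 := (abs_le.1 h1).2
  have h6 := SS_le c X 2
  have h7 : (Nat.factorial 2 : ℝ) = 2 := by norm_num [Nat.factorial]
  rw [h7] at h5 h6
  rw [Real.mul_self_sqrt (by positivity)] at h5
  have h8 : (B - A) * SS c X 2 ≤ (B - A) * (2 * VS c X ^ 2) :=
    mul_le_mul_of_nonneg_left h6 (by linarith)
  have h9 : 8 * (Real.sqrt T * (1 + Real.log T)) * (2 * VS c X ^ 2) =
    16 * (Real.sqrt T * (1 + Real.log T)) * VS c X ^ 2 := by ring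
  linarith

lemma sub_int (f : ℝ → ℝ) {lam : ℝ} (hlam : 0 < lam) (A B d : ℝ) :
    ∫ t in A..B, f ((t + d) / lam) = lam * ∫ s in ((A + d) / lam)..((B + d) / lam), f s := by
  have h1 := intervalIntegral.integral_comp_add_right (a := A) (b := B) (fun t => f (t / lam)) d
  rw [h1, intervalIntegral.integral_comp_div f hlam.ne', smul_eq_mul]

/-- the deterministic part -/
theorem det (cr2 : S_CR2) {T r V1 lam b d : ℝ} {X : ℕ} {u v : ℕ → ℝ} (hT : 1 ≤ T) (hX : 1 ≤ X)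
    (hX3 : 12 * (X : ℝ) ^ 3 ≤ T / 8) (hX4 : ((X ^ 4 : ℕ) : ℝ) ≤ Real.sqrt T)
    (hg : 48 * (Real.sqrt T * (1 + Real.log T)) ≤ T / 16) (hu : ∀ n, |u n| ≤ 1) (hv : ∀ n, |v n| ≤ 1)
    (hr : 4 ≤ r) (hV1 : V1 ≤ 11 / 10 * r ^ 2) (hu1 : r ^ 2 ≤ VS u X) (hu2 : VS u X ≤ V1)
    (hv1 : r ^ 2 ≤ VS v X) (hv2 : VS v X ≤ V1) (hlam : 1 / 2 ≤ lam) (hlam2 : lam ≤ 2)
    (hcr : |∫ t in (5 / 4 * T)..(7 / 4 * T), PP u X (t + b) * PP v X ((t + d) / lam)| ≤
      T / 4 * (VS u X / 8 + 1) + T / 16) :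
    T / 2 * (r / 10) ≤ ∫ t in (5 / 4 * T)..(7 / 4 * T), |PP u X (t + b) - PP v X ((t + d) / lam)| := by
  have hT0 : 0 < T := by linarith
  have hlam0 : 0 < lam := by linarith
  have hAB : 5 / 4 * T ≤ 7 / 4 * T := by linarith
  have hPu := PP_cont u X
  have hPv := PP_cont v X
  have hX0 : 0 ≤ (X : ℝ) ^ 3 := by positivity
  have c0 : ∀ w : ℕ → ℝ, ∑ p ∈ Prm X, w p * w p * Real.cos (0 * Real.log p) = VS w X := by
    intro w
    rw [VS_eq']
    refine Finset.sum_congr rfl fun p _ => ?_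
    rw [zero_mul, Real.cos_zero]; ring
  -- second moments
  have q1 : T / 4 * VS u X - 4 * (X : ℝ) ^ 3 ≤ ∫ t in (5 / 4 * T)..(7 / 4 * T), PP u X (t + b) ^ 2 := by
    have h1 := cr2 X u u hu hu (5 / 4 * T) (7 / 4 * T) b b hAB
    rw [sub_self, c0] at h1
    have h2 := (abs_le.1 h1).1
    have h3 : (∫ t in (5 / 4 * T)..(7 / 4 * T), (∑ p ∈ Prm X, u p * Real.cos ((t + b) * Real.log p)) *
        (∑ q ∈ Prm X, u q * Real.cos ((t + b) * Real.log q))) =
        ∫ t in (5 / 4 * T)..(7 / 4 * T), PP u X (t + b) ^ 2 := by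
      refine intervalIntegral.integral_congr fun t _ => ?_
      simp only [PP]; ring
    rw [h3] at h2
    have h4 : (7 / 4 * T - 5 / 4 * T) / 2 * VS u X = T / 4 * VS u X := by ring
    linarith
  have q2 : T / 4 * VS v X - 8 * (X : ℝ) ^ 3 ≤
      ∫ t in (5 / 4 * T)..(7 / 4 * T), PP v X ((t + d) / lam) ^ 2 := by
    have h0 := sub_int (fun s => PP v X s ^ 2) hlam0 (5 / 4 * T) (7 / 4 * T) d
    have hAB' : (5 / 4 * T + d) / lam ≤ (7 / 4 * T + d) / lam :=
      div_le_div_of_nonneg_right (by linarith) hlam0.le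
    have h1 := cr2 X v v hv hv ((5 / 4 * T + d) / lam) ((7 / 4 * T + d) / lam) 0 0 hAB'
    rw [sub_self, c0] at h1
    have h2 := (abs_le.1 h1).1
    have h3 : (∫ t in ((5 / 4 * T + d) / lam)..((7 / 4 * T + d) / lam),
        (∑ p ∈ Prm X, v p * Real.cos ((t + 0) * Real.log p)) *
        (∑ q ∈ Prm X, v q * Real.cos ((t + 0) * Real.log q))) =
        ∫ t in ((5 / 4 * T + d) / lam)..((7 / 4 * T + d) / lam), PP v X t ^ 2 := by
      refine intervalIntegral.integral_congr fun t _ => ?_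
      simp only [PP, add_zero]; ring
    rw [h3] at h2
    have h4 : lam * (((7 / 4 * T + d) / lam - (5 / 4 * T + d) / lam) / 2 * VS v X) =
      T / 4 * VS v X := by field_simp; ring
    have h5 : lam * (((7 / 4 * T + d) / lam - (5 / 4 * T + d) / lam) / 2 * VS v X - 4 * (X : ℝ) ^ 3) ≤
        lam * ∫ t in ((5 / 4 * T + d) / lam)..((7 / 4 * T + d) / lam), PP v X t ^ 2 :=
      mul_le_mul_of_nonneg_left (by linarith) hlam0.le
    rw [h0]
    have h6 : lam * (4 * (X : ℝ) ^ 3) ≤ 2 * (4 * (X : ℝ) ^ 3) :=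
      mul_le_mul_of_nonneg_right hlam2 (by positivity)
    rw [mul_sub, h4] at h5
    linarith
  -- fourth moments
  have hlog : 0 ≤ Real.log T := Real.log_nonneg hT
  have hS0 : 0 ≤ Real.sqrt T * (1 + Real.log T) := by positivity
  have hVu := VS_nonneg u X
  have hVv := VS_nonneg v X
  have hVu2 : VS u X ^ 2 ≤ V1 ^ 2 := pow_le_pow_left₀ hVu hu2 2
  have hVv2 : VS v X ^ 2 ≤ V1 ^ 2 := pow_le_pow_left₀ hVv hv2 2
  have q3 : ∫ t in (5 / 4 * T)..(7 / 4 * T), PP u X (t + b) ^ 4 ≤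
      T * V1 ^ 2 + 16 * (Real.sqrt T * (1 + Real.log T)) * V1 ^ 2 := by
    have h0 := sub_int (fun s => PP u X s ^ 4) one_pos (5 / 4 * T) (7 / 4 * T) b
    simp only [div_one, one_mul] at h0
    rw [h0]
    refine (m4 u X hX T _ _ hT (by linarith) hX4).trans ?_
    have e : (7 / 4 * T + b - (5 / 4 * T + b)) * (2 * VS u X ^ 2) = T * VS u X ^ 2 := by ring
    rw [e]
    exact add_le_add (mul_le_mul_of_nonneg_left hVu2 hT0.le)
      (mul_le_mul_of_nonneg_left hVu2 (by positivity))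
  have q4 : ∫ t in (5 / 4 * T)..(7 / 4 * T), PP v X ((t + d) / lam) ^ 4 ≤
      T * V1 ^ 2 + 32 * (Real.sqrt T * (1 + Real.log T)) * V1 ^ 2 := by
    have h0 := sub_int (fun s => PP v X s ^ 4) hlam0 (5 / 4 * T) (7 / 4 * T) d
    have hAB' : (5 / 4 * T + d) / lam ≤ (7 / 4 * T + d) / lam :=
      div_le_div_of_nonneg_right (by linarith) hlam0.le
    rw [h0]
    have h1 := mul_le_mul_of_nonneg_left (m4 v X hX T _ _ hT hAB' hX4) hlam0.le
    refine h1.trans ?_
    have e : lam * (((7 / 4 * T + d) / lam - (5 / 4 * T + d) / lam) * (2 * VS v X ^ 2) +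
        16 * (Real.sqrt T * (1 + Real.log T)) * VS v X ^ 2) =
        T * VS v X ^ 2 + lam * (16 * (Real.sqrt T * (1 + Real.log T)) * VS v X ^ 2) := by
      field_simp; ring
    rw [e]
    have h2 : lam * (16 * (Real.sqrt T * (1 + Real.log T)) * VS v X ^ 2) ≤
        2 * (16 * (Real.sqrt T * (1 + Real.log T)) * V1 ^ 2) := by
      apply mul_le_mul hlam2 _ (by positivity) (by norm_num)
      exact mul_le_mul_of_nonneg_left hVv2 (by positivity)
    have h3 := mul_le_mul_of_nonneg_left hVv2 hT0.le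
    linarith
  -- the difference
  set f : ℝ → ℝ := fun t => PP u X (t + b) - PP v X ((t + d) / lam) with hf
  have hfc : Continuous f := by
    simp only [hf]; fun_prop
  have i1 : IntervalIntegrable (fun t => PP u X (t + b) ^ 2) volume (5 / 4 * T) (7 / 4 * T) :=
    Continuous.intervalIntegrable (by fun_prop) _ _
  have i2 : IntervalIntegrable (fun t => PP v X ((t + d) / lam) ^ 2) volume (5 / 4 * T) (7 / 4 * T) :=
    Continuous.intervalIntegrable (by fun_prop) _ _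
  have i3 : IntervalIntegrable (fun t => PP u X (t + b) * PP v X ((t + d) / lam)) volume
      (5 / 4 * T) (7 / 4 * T) := Continuous.intervalIntegrable (by fun_prop) _ _
  have i4 : IntervalIntegrable (fun t => PP u X (t + b) ^ 4) volume (5 / 4 * T) (7 / 4 * T) :=
    Continuous.intervalIntegrable (by fun_prop) _ _
  have i5 : IntervalIntegrable (fun t => PP v X ((t + d) / lam) ^ 4) volume (5 / 4 * T) (7 / 4 * T) :=
    Continuous.intervalIntegrable (by fun_prop) _ _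
  have s2 : T / 2 * (3 / 4 * r ^ 2) ≤ ∫ t in (5 / 4 * T)..(7 / 4 * T), f t ^ 2 := by
    have e : ∫ t in (5 / 4 * T)..(7 / 4 * T), f t ^ 2 =
        (∫ t in (5 / 4 * T)..(7 / 4 * T), PP u X (t + b) ^ 2) +
        (∫ t in (5 / 4 * T)..(7 / 4 * T), PP v X ((t + d) / lam) ^ 2) -
        2 * ∫ t in (5 / 4 * T)..(7 / 4 * T), PP u X (t + b) * PP v X ((t + d) / lam) := by
      rw [← intervalIntegral.integral_const_mul, ← intervalIntegral.integral_add i1 i2,
        ← intervalIntegral.integral_sub (i1.add i2) (i3.const_mul 2)]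
      refine intervalIntegral.integral_congr fun t _ => ?_
      simp only [hf]; ring
    rw [e]
    have h1 := (abs_le.1 hcr).2
    have h2 : T / 4 * (7 / 4 * r ^ 2 - 3) ≥ T / 2 * (3 / 4 * r ^ 2) := by
      have : 12 ≤ r ^ 2 := by nlinarith
      nlinarith
    have h3 : T / 4 * (3 / 4 * r ^ 2) ≤ T / 4 * (3 / 4 * VS u X) :=
      mul_le_mul_of_nonneg_left (by linarith) (by positivity)
    have h4 : T / 4 * r ^ 2 ≤ T / 4 * VS v X := mul_le_mul_of_nonneg_left hv1 (by positivity)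
    nlinarith
  have s4 : ∫ t in (5 / 4 * T)..(7 / 4 * T), f t ^ 4 ≤ T / 2 * (40 * (r ^ 2) ^ 2) := by
    have h1 : ∫ t in (5 / 4 * T)..(7 / 4 * T), f t ^ 4 ≤ ∫ t in (5 / 4 * T)..(7 / 4 * T),
        8 * (PP u X (t + b) ^ 4 + PP v X ((t + d) / lam) ^ 4) := by
      refine intervalIntegral.integral_mono_on hAB (Continuous.intervalIntegrable (by fun_prop) _ _)
        ((i4.add i5).const_mul 8) fun t _ => ?_
      simp only [hf]
      set x := PP u X (t + b)
      set y := PP v X ((t + d) / lam)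
      have k1 : (x - y) ^ 2 ≤ 2 * (x ^ 2 + y ^ 2) := by nlinarith [sq_nonneg (x + y)]
      have k2 : ((x - y) ^ 2) ^ 2 ≤ (2 * (x ^ 2 + y ^ 2)) ^ 2 := pow_le_pow_left₀ (sq_nonneg _) k1 2
      nlinarith [sq_nonneg (x ^ 2 - y ^ 2)]
    rw [intervalIntegral.integral_const_mul, intervalIntegral.integral_add i4 i5] at h1
    have h2 : 48 * (Real.sqrt T * (1 + Real.log T)) * V1 ^ 2 ≤ T / 16 * V1 ^ 2 :=
      mul_le_mul_of_nonneg_right hg (sq_nonneg _)
    have hV0 : 0 ≤ V1 := hVu.trans hu2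
    have h3 : V1 ^ 2 ≤ (11 / 10 * r ^ 2) ^ 2 := pow_le_pow_left₀ hV0 hV1 2
    have h4 : 8 * (33 / 16 * T * V1 ^ 2) ≤ 8 * (33 / 16 * T * (11 / 10 * r ^ 2) ^ 2) := by
      apply mul_le_mul_of_nonneg_left _ (by norm_num)
      exact mul_le_mul_of_nonneg_left h3 (by positivity)
    have h5 : 8 * (33 / 16 * T * (11 / 10 * r ^ 2) ^ 2) ≤ T / 2 * (40 * (r ^ 2) ^ 2) := by
      have : 0 ≤ T * (r ^ 2) ^ 2 := by positivity
      nlinarith
    linarith
  have hs := l1_low hfc hAB (show 0 < 8 * r by linarith)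
  refine le_trans ?_ hs
  have r0 : 0 < r := by linarith
  have h1 : 3 / (2 * (8 * r)) * (T / 2 * (3 / 4 * r ^ 2)) ≤
      3 / (2 * (8 * r)) * ∫ t in (5 / 4 * T)..(7 / 4 * T), f t ^ 2 :=
    mul_le_mul_of_nonneg_left s2 (by positivity)
  have h2 : 1 / (2 * (8 * r) ^ 3) * (∫ t in (5 / 4 * T)..(7 / 4 * T), f t ^ 4) ≤
      1 / (2 * (8 * r) ^ 3) * (T / 2 * (40 * (r ^ 2) ^ 2)) :=
    mul_le_mul_of_nonneg_left s4 (by positivity)
  have h3 : 3 / (2 * (8 * r)) * (T / 2 * (3 / 4 * r ^ 2)) = T / 2 * (r * (9 / 64)) := by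
    field_simp; ring
  have h4 : 1 / (2 * (8 * r) ^ 3) * (T / 2 * (40 * (r ^ 2) ^ 2)) = T / 2 * (r * (40 / 1024)) := by
    field_simp; ring
  have h5 : 0 ≤ T / 2 * r := by positivity
  linarith

end Pool.Agent.Y743.AF
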